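import Pool.Agent.R322.FH.Sv

/-!
# The closed facet-Hamiltonian sequence of words
-/

set_option autoImplicit false

namespace Pool.Agent.R322.FH

/-- the word `u` with `x` inserted after `p` letters -/
def kf (u : List ℤ) (x : ℤ) (p : ℕ) : List ℤ := u.take p ++ x :: u.drop p

/-- the closing words -/
def D1 (u : List ℤ) (x : ℤ) : ℕ → List (List ℤ)
  | 0 => []
  | p + 1 => kf u x (p + 1) :: D1 u x p

theorem kf_zero (u : List ℤ) (x : ℤ) : kf u x 0 = x :: u := by simp [kf]

theorem kf_adj (u : List ℤ) (x : ℤ) (p : ℕ) (hp : p < u.length) :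
    Adj (kf u x (p + 1)) (kf u x p) := by
  have h := List.take_append_drop p u
  rcases hd : u.drop p with _ | ⟨a, β⟩
  · exfalso
    have := congrArg List.length hd
    simp at this
    omega
  · rw [hd] at h
    have hl : (u.take p).length = p := by simp; omega
    have e1 : u.take (p + 1) = u.take p ++ [a] := by
      conv_lhs => rw [← h]
      rw [List.take_append, List.take_of_length_le (by omega), hl]
      simp
    have e2 : u.drop (p + 1) = β := by
      rw [← List.drop_drop] at *
      rw [hd]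
      simp
    refine Or.inl ⟨u.take p, a, x, β, ?_, ?_⟩
    · unfold kf
      rw [e1, e2]
      simp
    · unfold kf
      rw [hd]

theorem D1_ww (u : List ℤ) (x : ℤ) : ∀ p, p ≤ u.length → ∀ s, Adj s (kf u x p) →
    WW s (kf u x 0) (D1 u x p ++ [kf u x 0]) := by
  intro p
  induction p with
  | zero =>
    intro _ s hs
    exact WW.cons hs (WW.nil _)
  | succ p ih =>
    intro hp s hs
    exact WW.cons hs (ih (by omega) _ (kf_adj u x p (by omega)))

theorem D1_length (u : List ℤ) (x : ℤ) (p : ℕ) : (D1 u x p).length = p := by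
  induction p with
  | zero => rfl
  | succ p ih => simp [D1, ih]

theorem D1_getD (u : List ℤ) (x : ℤ) : ∀ (p i : ℕ), i < p → (D1 u x p).getD i [] = kf u x (p - i) := by
  intro p
  induction p with
  | zero => intro i hi; omega
  | succ p ih =>
    intro i hi
    cases i with
    | zero => simp [D1]
    | succ i =>
      simp only [D1, List.getD_cons_succ]
      rw [ih i (by omega)]
      congr 1
      omega

theorem ww_get {a b : List ℤ} {C : List (List ℤ)} (h : WW a b C) :
    ∀ i, i < C.length → Adj ((a :: C).getD i []) ((a :: C).getD (i + 1) []) := by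
  induction h with
  | nil u => intro i hi; simp at hi
  | cons hadj _ ih =>
    intro i hi
    cases i with
    | zero => simpa using hadj
    | succ i =>
      simp only [List.getD_cons_succ]
      have := ih i (by simpa using hi)
      simpa using this

theorem ww_last {a b : List ℤ} {C : List (List ℤ)} (h : WW a b C) :
    (a :: C).getD C.length [] = b := by
  induction h with
  | nil u => rfl
  | cons _ _ ih => simpa using ih

theorem getD_mem {α : Type} {l : List α} {i : ℕ} {d : α} (h : i < l.length) : l.getD i d ∈ l := by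
  rw [List.getD_eq_getElem _ _ h]
  exact List.getElem_mem h

/-- both `x` and `-x` in a signed word is impossible -/
theorem not_both {n : ℕ} {w : List ℤ} (h : SW n w) {x : ℤ} (h1 : x ∈ w) (h2 : -x ∈ w)
    (hx : x ≠ 0) : False := by
  have hnd := h.ss.1
  have hinj := List.inj_on_of_nodup_map hnd h1 h2 (by simp)
  omega

theorem sv_sign {n : ℕ} (w : List ℤ) (q : ℕ) (i : Fin n) :
    sv n w q i = 0 ∨ sv n w q i = 1 ∨ sv n w q i = -1 := by
  unfold sv
  split_ifs <;> simp

theorem sv_ne_zero {n : ℕ} {w : List ℤ} (h : SW n w) {q : ℕ} (hq1 : 1 ≤ q) (hq2 : q ≤ n) :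
    sv n w q ≠ 0 := by
  intro h0
  have := sv_supp h hq2
  rw [h0] at this
  simp at this
  omega

/-- the type of nonzero sign vectors -/
abbrev NZ (n : ℕ) : Type := {t : Fin n → SignType // t ≠ 0}

theorem card_NZ (n : ℕ) : Fintype.card (NZ n) = 3 ^ n - 1 := by
  have h1 : Fintype.card (Fin n → SignType) = 3 ^ n := by
    rw [Fintype.card_fun, Fintype.card_fin]
    rfl
  have h2 := Fintype.card_subtype_compl (fun t : Fin n → SignType => t = 0)
  rw [h1] at h2
  have h3 : Fintype.card {t : Fin n → SignType // t = 0} = 1 := Fintype.card_subtype_eq 0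
  rw [h3] at h2
  exact h2

/-- the integer sign vector -/
def toZ {n : ℕ} (t : Fin n → SignType) : Fin n → ℤ := fun j => ((t j : SignType) : ℤ)

theorem toZ_inj {n : ℕ} {t t' : Fin n → SignType} (h : toZ t = toZ t') : t = t' := by
  funext j
  have := congrFun h j
  unfold toZ at this
  revert this
  cases t j <;> cases t' j <;> simp

theorem toZ_sign {n : ℕ} (t : Fin n → SignType) (i : Fin n) :
    toZ t i = 0 ∨ toZ t i = 1 ∨ toZ t i = -1 := by
  unfold toZ
  cases t i <;> simp

theorem toZ_neg {n : ℕ} (t : Fin n → SignType) : toZ (-t) = -toZ t := by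
  funext j
  unfold toZ
  simp only [Pi.neg_apply]
  cases t j <;> rfl

theorem toZ_zero {n : ℕ} : toZ (0 : Fin n → SignType) = 0 := by
  funext j
  simp [toZ]

theorem toZ_surj {n : ℕ} (s : Fin n → ℤ) (hs : ∀ i, s i = 0 ∨ s i = 1 ∨ s i = -1) :
    ∃ t : Fin n → SignType, toZ t = s := by
  refine ⟨fun j => SignType.sign (s j), ?_⟩
  funext j
  show ((SignType.sign (s j) : SignType) : ℤ) = s j
  rcases hs j with h | h | h
  · rw [h]; simp
  · rw [h]; simp
  · rw [h]; simp

theorem comb_closed {m : ℕ} (T : List (List ℤ)) (hm : 2 ≤ m) (hT : T.length = 3 ^ m - 1)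
    (hSW : ∀ w ∈ T, SW m w)
    (hadj : ∀ i, i < T.length → Adj (T.getD i []) (T.getD ((i + 1) % T.length) []))
    (hcov : ∀ s : Fin m → ℤ, (∀ i, s i = 0 ∨ s i = 1 ∨ s i = -1) → s ≠ 0 → ∃ w ∈ T, act' m w s) :
    ∀ s : Fin m → ℤ, (∀ i, s i = 0 ∨ s i = 1 ∨ s i = -1) → s ≠ 0 →
      ∃ (a : ZMod (3 ^ m - 1)) (k : ℕ), 0 < k ∧ k < 3 ^ m - 1 ∧
        ∀ i : ZMod (3 ^ m - 1), act' m (T.getD i.val []) s ↔ ∃ j < k, i = a + (j : ℕ) := by
  have h9 : 3 ^ 2 ≤ 3 ^ m := Nat.pow_le_pow_right (by norm_num) hm
  have : NeZero (3 ^ m - 1) := ⟨by omega⟩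
  have hval : ∀ i : ZMod (3 ^ m - 1), i.val < T.length := by
    intro i
    rw [hT]
    exact ZMod.val_lt i
  have hsucc : ∀ i : ZMod (3 ^ m - 1), (i + 1).val = (i.val + 1) % T.length := by
    intro i
    rw [hT, ZMod.val_add, ZMod.val_one_eq_one_mod]
    simp
  have hSW' : ∀ i : ZMod (3 ^ m - 1), SW m (T.getD i.val []) := fun i => hSW _ (getD_mem (hval i))
  intro s hs hs0
  obtain ⟨t, rfl⟩ := toZ_surj s hs
  have ht : t ≠ 0 := by
    rintro rfl
    exact hs0 toZ_zero
  have hnz : ∀ t : NZ m, toZ t.1 ≠ 0 := by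
    intro t h0
    apply t.2
    apply toZ_inj
    rw [h0, toZ_zero]
  have h1 : ∀ t : NZ m, ∃ i : ZMod (3 ^ m - 1), act' m (T.getD i.val []) (toZ t.1) := by
    intro t
    obtain ⟨w, hw, hw'⟩ := hcov (toZ t.1) (toZ_sign t.1) (hnz t)
    obtain ⟨k, hk, rfl⟩ := List.getElem_of_mem hw
    refine ⟨(k : ZMod (3 ^ m - 1)), ?_⟩
    rw [ZMod.val_natCast_of_lt (by omega), List.getD_eq_getElem _ _ hk]
    exact hw'
  exact cyc_block (N := 3 ^ m - 1) (card_NZ m)
    (fun i (t : NZ m) => act' m (T.getD i.val []) (toZ t.1))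
    (by
      intro i f f' h1 h2 h3 h4
      apply Subtype.ext
      apply toZ_inj
      have ha := hadj i.val (hval i)
      rw [← hsucc] at ha
      exact act_uniq (hSW' i) ha _ _ h1 h2 h3 h4)
    h1
    (by
      intro f
      have hneg : -f.1 ≠ 0 := by
        intro h0
        apply f.2
        apply toZ_inj
        have := congrArg toZ h0
        rw [toZ_neg, toZ_zero] at this
        rw [toZ_zero]
        exact neg_eq_zero.mp this
      obtain ⟨i, q, hq1, hq2, hq3⟩ := h1 ⟨-f.1, hneg⟩
      refine ⟨i, ?_⟩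
      rintro ⟨q', hq1', hq2', hq3'⟩
      simp only at hq3
      rw [toZ_neg, hq3'] at hq3
      have c1 := sv_supp (hSW' i) hq2
      have c2 := sv_supp (hSW' i) hq2'
      rw [← hq3] at c1
      simp only [Pi.neg_apply, ne_eq, neg_eq_zero] at c1
      have : q = q' := c1.symm.trans c2
      rw [this] at hq3
      apply sv_ne_zero (hSW' i) hq1' hq2'
      funext j
      have := congrFun hq3 j
      simp only [Pi.neg_apply] at this
      show sv m (T.getD i.val []) q' j = 0
      omega)
    ⟨t, ht⟩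

end Pool.Agent.R322.FH
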