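import Pool.Agent.R322.FH.Closed

/-!
# The combinatorial theorem
-/

set_option autoImplicit false

namespace Pool.Agent.R322.FH

theorem kf_mem (u : List ℤ) (x : ℤ) (p : ℕ) : x ∈ kf u x p := by simp [kf]

theorem kf_inj {u : List ℤ} {x : ℤ} (hx : x ∉ u) {p q : ℕ} (hp : p ≤ u.length) (hq : q ≤ u.length)
    (h : kf u x p = kf u x q) : p = q := by
  have key : ∀ r, r ≤ u.length → (kf u x r).idxOf x = r := by
    intro r hr
    unfold kf
    rw [List.idxOf_append_of_notMem (fun h => hx (List.mem_of_mem_take h))]
    simp [hr]
  rw [← key p hp, ← key q hq, h]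

theorem last_val (n : ℕ) : (((Fin.last n : Fin (n + 1)) : ℕ) : ℤ) + 1 = (n : ℤ) + 1 := by
  simp

theorem stmComb : StmComb := by
  intro m hm
  obtain ⟨n, rfl⟩ : ∃ n, m = n + 1 := ⟨m - 1, by omega⟩
  have hn : 1 ≤ n := by omega
  obtain ⟨w0, wK, wL, CL, AL, mL, CR, AR, mR, h0⟩ := hyp_all n hn
  obtain ⟨w0', wK', wL', CL', AL', mL', CR', AR', mR', h, u, P, M, hu, e0, eL, ePM, hP, hM, hr⟩ :=
    step hn h0
  clear h0 w0 wK wL CL AL mL CR AR mR
  set x : ℤ := (n : ℤ) + 1 with hxdef
  have hx0 : x ≠ 0 := by omega
  have hul : u.length = n := hu.length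
  have hxu : x ∉ u := by
    intro hmem
    have := hu.ss.2 x hmem
    omega
  have hmxu : -x ∉ u := by
    intro hmem
    have := hu.ss.2 (-x) hmem
    omega
  have hww1 : WW (x :: u) (u ++ [-x]) (P ++ M) := by
    have := (h.left.append h.right).ww
    rw [ePM, e0, eL] at this
    simpa [wd] using this
  have hsw0 : SW (n + 1) (x :: u) := by
    have := h.sw
    rwa [e0] at this
  have hclose : Adj (u ++ [-x]) (kf u x n) := by
    refine Or.inr ⟨u, -x, rfl, ?_⟩
    unfold kf
    rw [List.take_of_length_le (by omega), List.drop_of_length_le (by omega), neg_neg]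
  have hww2 := D1_ww u x n (by omega) _ hclose
  rw [kf_zero] at hww2
  have hww := hww1.append hww2
  set D := D1 u x n with hD
  have hDl : D.length = n := D1_length u x n
  set T : List (List ℤ) := (x :: u) :: (P ++ M) ++ D with hTdef
  have hPMl : P.length + M.length + (n + 1) + 1 = 3 ^ (n + 1) := by
    have h1 := h.cnt1
    have h2 := congrArg List.length ePM
    simp only [List.length_append] at h2
    omega
  have hTl : T.length = 3 ^ (n + 1) - 1 := by
    rw [hTdef]
    simp only [List.length_append, List.length_cons]
    omega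
  have hfull : (x :: u) :: ((P ++ M) ++ (D ++ [x :: u])) = T ++ [x :: u] := by
    rw [hTdef]; simp
  have hSWT : ∀ w ∈ T, SW (n + 1) w := by
    intro w hw
    have h1 := (hww.sw hsw0).2
    have h2 : w ∈ (x :: u) :: ((P ++ M) ++ (D ++ [x :: u])) := by
      rw [hfull]
      exact List.mem_append_left _ hw
    rcases List.mem_cons.mp h2 with rfl | h2
    · exact hsw0
    · exact h1 w h2
  have hT0 : T.getD 0 [] = x :: u := by rw [hTdef]; simp
  have hNpos : 0 < T.length := by rw [hTdef]; simp
  have hadj : ∀ i, i < T.length → Adj (T.getD i []) (T.getD ((i + 1) % T.length) []) := by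
    intro i hi
    have h1 := ww_get hww i (by
      have := congrArg List.length hfull
      simp only [List.length_cons, List.length_append, List.length_nil] at this ⊢
      omega)
    rw [hfull, List.getD_append _ _ _ _ hi] at h1
    rcases Nat.lt_or_ge (i + 1) T.length with h2 | h2
    · rw [List.getD_append _ _ _ _ h2] at h1
      rwa [Nat.mod_eq_of_lt h2]
    · have h3 : i + 1 = T.length := by omega
      rw [h3, List.getD_append_right _ _ _ _ (le_refl _)] at h1
      rw [h3, Nat.mod_self, hT0]
      simpa using h1
  have hcov : ∀ s : Fin (n + 1) → ℤ, (∀ i, s i = 0 ∨ s i = 1 ∨ s i = -1) → s ≠ 0 →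
      ∃ w ∈ T, act' (n + 1) w s := by
    intro s hs hs0
    obtain ⟨q, hq, hqS⟩ := h.cov (letters s) (letters_ss s hs)
    have hwq : wd q ∈ (x :: u) :: (P ++ M) := by
      rw [← ePM]
      rcases hq with hq | hq
      · have := h.left.wd_mem q hq
        rw [e0] at this
        rcases List.mem_cons.mp this with h1 | h1
        · rw [h1]; simp [wd]
        · exact List.mem_cons_of_mem _ (List.mem_append_left _ h1)
      · have := h.right.wd_mem q (List.mem_cons_of_mem _ hq)
        rcases List.mem_cons.mp this with h1 | h1
        · have h2 := h.left.wd_mem _ h.left.end_mem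
          rw [e0, ← h1] at h2
          rcases List.mem_cons.mp h2 with h3 | h3
          · rw [h3]; simp [wd]
          · exact List.mem_cons_of_mem _ (List.mem_append_left _ h3)
        · exact List.mem_cons_of_mem _ (List.mem_append_right _ h1)
    have hwT : wd q ∈ T := by
      rw [hTdef]
      exact List.mem_append_left _ hwq
    refine ⟨wd q, hwT, act_of_cov (hSWT _ hwT) s hs hs0 (k := q.1.length) ?_⟩
    unfold wd
    rw [List.take_left']
    · exact hqS
    · rfl
  have hblock := comb_closed T hm hTl hSWT hadj hcov
  have h9 : 3 ^ 2 ≤ 3 ^ (n + 1) := Nat.pow_le_pow_right (by norm_num) hm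
  have hNZ : NeZero (3 ^ (n + 1) - 1) := ⟨by omega⟩
  have hval : ∀ i : ZMod (3 ^ (n + 1) - 1), i.val < T.length := by
    intro i
    rw [hTl]
    exact ZMod.val_lt i
  -- coordinates at the last index
  have hlast1 : ∀ (w : List ℤ) (q : ℕ), x ∈ w.take q → sv (n + 1) w q (Fin.last n) = 1 := by
    intro w q hw
    unfold sv
    rw [last_val, if_pos hw]
  have hlast2 : ∀ (w : List ℤ) (q : ℕ), x ∉ w.take q → sv (n + 1) w q (Fin.last n) ≠ 1 := by
    intro w q hw
    unfold sv
    rw [last_val, if_neg hw]
    split_ifs <;> norm_num
  have hlast3 : ∀ (w : List ℤ) (q : ℕ), x ∉ w.take q → -x ∈ w.take q →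
      sv (n + 1) w q (Fin.last n) = -1 := by
    intro w q hw hw'
    unfold sv
    rw [last_val, if_neg hw, if_pos hw']
  have hlast4 : ∀ (w : List ℤ) (q : ℕ), x ∉ w.take q → -x ∉ w.take q →
      sv (n + 1) w q (Fin.last n) = 0 := by
    intro w q hw hw'
    unfold sv
    rw [last_val, if_neg hw, if_neg hw']
  -- positions
  have posE : T.getD (P.length + M.length) [] = u ++ [-x] := by
    have h1 := ww_last hww1
    rw [hTdef, List.getD_append _ _ _ _ (by simp)]
    rwa [List.length_append] at h1
  have posP : ∀ i, i ≤ P.length → x ∈ T.getD i [] := by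
    intro i hi
    rw [hTdef]
    have e1 : (x :: u) :: (P ++ M) ++ D = ((x :: u) :: P) ++ (M ++ D) := by simp
    rw [e1, List.getD_append _ _ _ _ (by simp; omega)]
    have h1 : ((x :: u) :: P).getD i [] ∈ (x :: u) :: P := getD_mem (by simp; omega)
    rcases List.mem_cons.mp h1 with h1 | h1
    · rw [h1]; simp
    · exact hP _ h1
  have posM : ∀ i, P.length < i → i ≤ P.length + M.length → -x ∈ T.getD i [] := by
    intro i hi hi'
    rw [hTdef]
    have e1 : (x :: u) :: (P ++ M) ++ D = ((x :: u) :: P) ++ (M ++ D) := by simp
    rw [e1, List.getD_append_right _ _ _ _ (by simp; omega), List.getD_append _ _ _ _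
      (by simp; omega)]
    exact hM _ (getD_mem (by simp; omega))
  have posD : ∀ i, P.length + M.length < i → i < T.length →
      T.getD i [] = kf u x (n - (i - (P.length + M.length + 1))) := by
    intro i hi hi'
    rw [hTdef, List.getD_append_right _ _ _ _ (by simp; omega)]
    have e1 : ((x :: u) :: (P ++ M)).length = P.length + M.length + 1 := by simp
    rw [e1, hD, D1_getD]
    rw [hTl] at hi'
    omega
  obtain ⟨r, hr⟩ := hr
  obtain ⟨tr, htr, htr'⟩ := List.getElem_of_mem hr
  have posR : T.getD (P.length + 1 + tr) [] = -x :: r := by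
    rw [hTdef]
    have e1 : (x :: u) :: (P ++ M) ++ D = ((x :: u) :: P) ++ (M ++ D) := by simp
    rw [e1, List.getD_append_right _ _ _ _ (by simp), List.getD_append _ _ _ _
      (by simp; omega)]
    have e2 : P.length + 1 + tr - ((x :: u) :: P).length = tr := by simp
    rw [e2, List.getD_eq_getElem _ _ htr, htr']
  -- injectivity
  have hinj : ∀ i j : ℕ, i < j → j < T.length → T.getD i [] ≠ T.getD j [] := by
    intro i j hij hj he
    have hSWi : SW (n + 1) (T.getD i []) := hSWT _ (getD_mem (by omega))
    have hdich : ∀ q, 1 ≤ q → q ≤ n + 1 →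
        (∀ t : ℕ, i ≤ t → t ≤ j → act' (n + 1) (T.getD t []) (sv (n + 1) (T.getD i []) q)) ∨
        ((∀ t : ℕ, t ≤ i → act' (n + 1) (T.getD t []) (sv (n + 1) (T.getD i []) q)) ∧
          (∀ t : ℕ, j ≤ t → t < T.length →
            act' (n + 1) (T.getD t []) (sv (n + 1) (T.getD i []) q))) := by
      intro q hq1 hq2
      obtain ⟨a, k, hk0, hk1, hk⟩ := hblock (sv (n + 1) (T.getD i []) q)
        (sv_sign _ _) (sv_ne_zero hSWi hq1 hq2)
      have hv : ∀ t : ℕ, t < T.length → ((t : ZMod (3 ^ (n + 1) - 1))).val = t := by
        intro t ht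
        exact ZMod.val_natCast_of_lt (by omega)
      have := block_or (fun y : ZMod (3 ^ (n + 1) - 1) =>
        act' (n + 1) (T.getD y.val []) (sv (n + 1) (T.getD i []) q)) a k hk1 hk hij
        (by omega) (by
          show act' _ (T.getD (((i : ZMod (3 ^ (n + 1) - 1))).val) []) _
          rw [hv i (by omega)]
          exact ⟨q, hq1, hq2, rfl⟩) (by
          show act' _ (T.getD (((j : ZMod (3 ^ (n + 1) - 1))).val) []) _
          rw [hv j hj, ← he]
          exact ⟨q, hq1, hq2, rfl⟩)
      rcases this with h1 | ⟨h1, h2⟩
      · left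
        intro t ht1 ht2
        have := h1 t ht1 ht2
        rwa [hv t (by omega)] at this
      · right
        refine ⟨fun t ht => ?_, fun t ht1 ht2 => ?_⟩
        · have := h1 t ht
          rwa [hv t (by omega)] at this
        · have := h2 t ht1 (by omega)
          rwa [hv t ht2] at this
    rcases Nat.lt_or_ge (P.length + M.length) j with hjE | hjE
    · -- `j` in the closing part
      have hWj := posD j hjE hj
      set p := n - (j - (P.length + M.length + 1)) with hp
      have hp1 : 1 ≤ p := by omega
      have hpn : p ≤ n := by omega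
      rcases Nat.lt_or_ge (P.length + M.length) i with hiE | hiE
      · have hWi := posD i hiE (by omega)
        rw [hWi, hWj] at he
        have := kf_inj hxu (by omega) (by omega) he
        omega
      · have hiP : i ≤ P.length := by
          by_contra hcon
          have h1 := posM i (by omega) hiE
          have h2 : x ∈ T.getD i [] := by
            rw [he, hWj]
            exact kf_mem u x p
          exact not_both hSWi h2 h1 hx0
        -- the first letter of `W j`
        obtain ⟨u1, u', hu'⟩ : ∃ u1 u', u = u1 :: u' := by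
          cases hc : u with
          | nil => rw [hc] at hul; simp at hul; omega
          | cons a b => exact ⟨a, b, rfl⟩
        have htake : (T.getD i []).take 1 = [u1] := by
          rw [he, hWj]
          unfold kf
          rw [hu']
          obtain ⟨p', hp'⟩ : ∃ p', p = p' + 1 := ⟨p - 1, by omega⟩
          rw [hp']
          simp
        have hs1 : sv (n + 1) (T.getD i []) 1 (Fin.last n) = 0 := by
          apply hlast4
          · rw [htake]
            intro hc
            simp only [List.mem_cons, List.not_mem_nil, or_false] at hc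
            apply hxu
            rw [hu', hc]
            simp
          · rw [htake]
            intro hc
            simp only [List.mem_cons, List.not_mem_nil, or_false] at hc
            apply hmxu
            rw [hu', hc]
            simp
        rcases hdich 1 (le_refl _) (by omega) with h1 | ⟨h1, -⟩
        · obtain ⟨q, hq1, hq2, hq3⟩ := h1 (P.length + 1 + tr) (by omega) (by omega)
          rw [hq3, posR] at hs1
          obtain ⟨q', hq'⟩ : ∃ q', q = q' + 1 := ⟨q - 1, by omega⟩
          have hSWr : SW (n + 1) (-x :: r) := by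
            rw [← posR]
            exact hSWT _ (getD_mem (by omega))
          have h3 := hlast3 (-x :: r) q
            (fun hc => not_both hSWr (List.mem_of_mem_take hc) (by simp) hx0) (by
              rw [hq']; simp)
          omega
        · obtain ⟨q, hq1, hq2, hq3⟩ := h1 0 (Nat.zero_le _)
          rw [hq3, hT0] at hs1
          obtain ⟨q', hq'⟩ : ∃ q', q = q' + 1 := ⟨q - 1, by omega⟩
          have h3 := hlast1 (x :: u) q (by rw [hq']; simp)
          omega
    · -- both in the linear part
      have hA : ∀ q, 1 ≤ q → q ≤ n + 1 →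
          (∀ t : ℕ, i ≤ t → t ≤ j → act' (n + 1) (T.getD t []) (sv (n + 1) (T.getD i []) q)) := by
        intro q hq1 hq2
        rcases hdich q hq1 hq2 with h1 | ⟨h1, h2⟩
        · exact h1
        · exfalso
          obtain ⟨q1, hq11, hq12, hq13⟩ := h1 0 (Nat.zero_le _)
          obtain ⟨q2, hq21, hq22, hq23⟩ := h2 (P.length + M.length) hjE (by
            rw [hTdef]; simp)
          rw [hT0] at hq13
          rw [posE] at hq23
          have h3 := hlast1 (x :: u) q1 (by
            obtain ⟨q', hq'⟩ : ∃ q', q1 = q' + 1 := ⟨q1 - 1, by omega⟩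
            rw [hq']; simp)
          have h4 := hlast2 (u ++ [-x]) q2 (by
            intro hc
            have := List.mem_of_mem_take hc
            simp only [List.mem_append, List.mem_cons, List.not_mem_nil, or_false] at this
            rcases this with h | h
            · exact hxu h
            · omega)
          rw [← hq23, hq13] at h4
          exact h4 h3
      have hSWi1 : SW (n + 1) (T.getD (i + 1) []) := hSWT _ (getD_mem (by omega))
      have hadji := hadj i (by omega)
      rw [Nat.mod_eq_of_lt (by omega)] at hadji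
      obtain ⟨q0, hq01, hq02, -, hq0⟩ := adj_level hSWi hadji
      obtain ⟨q, hq1, hq2, hq3⟩ := hA q0 hq01 hq02 (i + 1) (by omega) (by omega)
      have := sv_size hSWi hSWi1 hq02 hq2 hq3
      rw [← this] at hq3
      exact hq0 hq3
  refine ⟨fun i => T.getD i.val [], fun i => hSWT _ (getD_mem (hval i)), ?_, ?_, ?_⟩
  · intro i j hij
    simp only at hij
    rcases lt_trichotomy i.val j.val with h1 | h1 | h1
    · exact absurd hij (hinj _ _ h1 (hval j))
    · exact ZMod.val_injective _ h1
    · exact absurd hij.symm (hinj _ _ h1 (hval i))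
  · intro i
    have h1 := hadj i.val (hval i)
    have h2 : (i + 1).val = (i.val + 1) % T.length := by
      rw [hTl, ZMod.val_add, ZMod.val_one_eq_one_mod]
      simp
    show Adj (T.getD i.val []) (T.getD (i + 1).val [])
    rw [h2]
    exact h1
  · intro s hs hs0
    obtain ⟨a, k, h1, -, h2⟩ := hblock s hs hs0
    exact ⟨a, k, h1, h2⟩

end Pool.Agent.R322.FH
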