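import Mathlib

/-!
# Counting lemma: closed sequences with one entry per step
-/

set_option autoImplicit false

namespace Pool.Agent.R322.FH

/-- a predicate on `ℕ` that is false at `0` and true at `d` switches somewhere in between -/
theorem switch {P : ℕ → Prop} {l d : ℕ} (hld : l ≤ d) (h0 : ¬ P l) (hd : P d) :
    ∃ t, l ≤ t ∧ t < d ∧ ¬ P t ∧ P (t + 1) := by
  induction d, hld using Nat.le_induction with
  | base => exact absurd hd h0
  | succ d hd' ih =>
    by_cases h : P d
    · obtain ⟨t, h1, h2, h3, h4⟩ := ih h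
      exact ⟨t, h1, by omega, h3, h4⟩
    · exact ⟨d, hd', by omega, h, hd⟩

theorem cyc_block {N : ℕ} [NeZero N] {F : Type} [Fintype F] (hcard : Fintype.card F = N)
    (act : ZMod N → F → Prop)
    (huniq : ∀ i f f', ¬ act i f → act (i + 1) f → ¬ act i f' → act (i + 1) f' → f = f')
    (h1 : ∀ f, ∃ i, act i f) (h2 : ∀ f, ∃ i, ¬ act i f) (f : F) :
    ∃ (a : ZMod N) (k : ℕ), 0 < k ∧ k < N ∧ ∀ i, act i f ↔ ∃ j < k, i = a + (j : ℕ) := by
  have hN : 0 < N := Nat.pos_of_ne_zero (NeZero.ne N)
  have hent : ∀ f, ∃ i, ¬ act i f ∧ act (i + 1) f := by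
    intro f
    obtain ⟨i0, hi0⟩ := h2 f
    obtain ⟨i1, hi1⟩ := h1 f
    have e : i0 + (((i1 - i0).val : ℕ) : ZMod N) = i1 := by
      rw [ZMod.natCast_zmod_val]; ring
    obtain ⟨t, -, -, h3, h4⟩ := switch (P := fun t : ℕ => act (i0 + (t : ZMod N)) f)
      (l := 0) (d := (i1 - i0).val) (Nat.zero_le _) (by simpa using hi0) (by
        show act (i0 + (((i1 - i0).val : ℕ) : ZMod N)) f
        rw [e]; exact hi1)
    refine ⟨i0 + t, h3, ?_⟩
    have : i0 + (t : ZMod N) + 1 = i0 + ((t + 1 : ℕ) : ZMod N) := by push_cast; ring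
    rw [this]
    exact h4
  choose e he1 he2 using hent
  have hinj : Function.Injective e := by
    intro f f' h
    exact huniq (e f) f f' (he1 f) (he2 f) (h ▸ he1 f') (h ▸ he2 f')
  have hbij : Function.Bijective e := by
    rw [Fintype.bijective_iff_injective_and_card]
    exact ⟨hinj, by rw [hcard, ZMod.card]⟩
  have hue : ∀ i, ¬ act i f → act (i + 1) f → i = e f := by
    intro i h3 h4
    obtain ⟨f', hf'⟩ := hbij.2 i
    have : f = f' := huniq i f f' h3 h4 (hf' ▸ he1 f') (hf' ▸ he2 f')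
    rw [this, hf']
  set a : ZMod N := e f + 1 with ha
  have hQ : ∃ t : ℕ, ¬ act (a + (t : ZMod N)) f := by
    refine ⟨N - 1, ?_⟩
    have : a + ((N - 1 : ℕ) : ZMod N) = e f := by
      rw [ha, Nat.cast_sub (by omega)]
      simp
    rw [this]
    exact he1 f
  classical
  refine ⟨a, Nat.find hQ, ?_, ?_, ?_⟩
  · rw [Nat.find_pos]
    simp only [Nat.cast_zero, add_zero, not_not]
    exact he2 f
  · have : Nat.find hQ ≤ N - 1 := by
      apply Nat.find_min'
      have : a + ((N - 1 : ℕ) : ZMod N) = e f := by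
        rw [ha, Nat.cast_sub (by omega)]
        simp
      rw [this]
      exact he1 f
    omega
  · intro i
    constructor
    · intro hi
      have e1 : i = a + (((i - a).val : ℕ) : ZMod N) := by
        rw [ZMod.natCast_zmod_val]; ring
      refine ⟨(i - a).val, ?_, e1⟩
      by_contra hk
      push Not at hk
      obtain ⟨t, h3, h4, h5, h6⟩ := switch (P := fun t : ℕ => act (a + (t : ZMod N)) f)
        hk (Nat.find_spec hQ) (by
          show act (a + (((i - a).val : ℕ) : ZMod N)) f
          rw [← e1]; exact hi)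
      have h7 : a + (t : ZMod N) = e f := by
        apply hue _ h5
        have : a + (t : ZMod N) + 1 = a + ((t + 1 : ℕ) : ZMod N) := by push_cast; ring
        rw [this]
        exact h6
      have h8 : ((t + 1 : ℕ) : ZMod N) = 0 := by
        have : ((t + 1 : ℕ) : ZMod N) = (a + (t : ZMod N)) - e f := by
          rw [ha]; push_cast; ring
        rw [this, h7, sub_self]
      rw [ZMod.natCast_eq_zero_iff] at h8
      have h9 := Nat.le_of_dvd (by omega) h8
      have h10 := ZMod.val_lt (i - a)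
      omega
    · rintro ⟨j, hj, rfl⟩
      have := Nat.find_min hQ hj
      simpa using this

/-- two positions of a block: the whole segment between them or the whole complement is in the
block -/
theorem block_or {N : ℕ} [NeZero N] (P : ZMod N → Prop) (a : ZMod N) (k : ℕ) (hk : k < N)
    (h : ∀ i, P i ↔ ∃ j < k, i = a + (j : ℕ)) {i j : ℕ} (hij : i < j) (hj : j < N)
    (hi' : P (i : ZMod N)) (hj' : P (j : ZMod N)) :
    (∀ t : ℕ, i ≤ t → t ≤ j → P (t : ZMod N)) ∨
      ((∀ t : ℕ, t ≤ i → P (t : ZMod N)) ∧ (∀ t : ℕ, j ≤ t → t < N → P (t : ZMod N))) := by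
  obtain ⟨ji, hji, ei⟩ := (h _).mp hi'
  obtain ⟨jj, hjj, ej⟩ := (h _).mp hj'
  rcases lt_trichotomy ji jj with hlt | heq | hgt
  · left
    have e1 : ((jj - ji : ℕ) : ZMod N) = ((j - i : ℕ) : ZMod N) := by
      rw [Nat.cast_sub hlt.le, Nat.cast_sub hij.le, ei, ej]; ring
    have e2 : jj - ji = j - i := by
      have := (ZMod.natCast_eq_natCast_iff' _ _ _).mp e1
      rwa [Nat.mod_eq_of_lt (by omega), Nat.mod_eq_of_lt (by omega)] at this
    intro t h1 h2
    rw [h]
    refine ⟨ji + (t - i), by omega, ?_⟩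
    rw [Nat.cast_add, Nat.cast_sub h1, ← add_assoc, ← ei]; ring
  · exfalso
    rw [heq, ← ej] at ei
    have := (ZMod.natCast_eq_natCast_iff' _ _ _).mp ei
    rw [Nat.mod_eq_of_lt (by omega), Nat.mod_eq_of_lt (by omega)] at this
    omega
  · right
    have e1 : ((ji - jj : ℕ) : ZMod N) = ((N - (j - i) : ℕ) : ZMod N) := by
      rw [Nat.cast_sub hgt.le, Nat.cast_sub (by omega), Nat.cast_sub hij.le, ei, ej]
      simp
    have e2 : ji - jj = N - (j - i) := by
      have := (ZMod.natCast_eq_natCast_iff' _ _ _).mp e1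
      rwa [Nat.mod_eq_of_lt (by omega), Nat.mod_eq_of_lt (by omega)] at this
    constructor
    · intro t ht
      rw [h]
      refine ⟨jj + (N - j + t), by omega, ?_⟩
      rw [Nat.cast_add, Nat.cast_add, Nat.cast_sub hj.le, ← add_assoc, ← ej]
      simp
    · intro t h1 h2
      rw [h]
      refine ⟨jj + (t - j), by omega, ?_⟩
      rw [Nat.cast_add, Nat.cast_sub h1, ← add_assoc, ← ej]; ring

end Pool.Agent.R322.FH
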