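import Mathlib

/-!
# Facet-Hamiltonian cycles in type B permutahedra: definitions
-/

set_option autoImplicit false

namespace Pool.Agent.R322.FH

/-- the signed permutation vectors `(ε₁ σ(1), …, εₙ σ(n))` -/
def signedPerms (n : ℕ) : Set (Fin n → ℝ) :=
  {v | ∃ (σ : Equiv.Perm (Fin n)) (ε : Fin n → ℝ), (∀ i, ε i = 1 ∨ ε i = -1) ∧
    ∀ i, v i = ε i * (((σ i : ℕ) : ℝ) + 1)}

/-- the type B permutahedron -/
def permB (n : ℕ) : Set (Fin n → ℝ) := convexHull ℝ (signedPerms n)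

/-- faces of `P`: the subsets where a valid linear inequality is tight -/
def IsFace {n : ℕ} (P F : Set (Fin n → ℝ)) : Prop :=
  ∃ (c : Fin n → ℝ) (b : ℝ), (∀ x ∈ P, ∑ i, c i * x i ≤ b) ∧ F = {x ∈ P | ∑ i, c i * x i = b}

/-- facets of `P`: the maximal proper faces -/
def IsFacet {n : ℕ} (P F : Set (Fin n → ℝ)) : Prop :=
  IsFace P F ∧ F ≠ P ∧ ∀ G, IsFace P G → G ≠ P → F ⊆ G → G = F

/-- `v` and `w` are joined by an edge of `P` -/
def IsEdge {n : ℕ} (P : Set (Fin n → ℝ)) (v w : Fin n → ℝ) : Prop :=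
  v ≠ w ∧ IsFace P (segment ℝ v w)

/-- `P` is facet-Hamiltonian: there is a cycle `v 0, v 1, …, v (N - 1)` (indices modulo `N`) without
repeated vertices in the skeleton of `P` such that for every facet `F` of `P` the part of the
cycle in `F` is nonempty and connected, i.e. the vertices of the cycle in `F` are
`v a, v (a + 1), …, v (a + k - 1)` for some `a` and some `k ≥ 1`. -/
def FacetHamiltonian {n : ℕ} (P : Set (Fin n → ℝ)) : Prop :=
  ∃ (N : ℕ) (v : ZMod N → (Fin n → ℝ)), 3 ≤ N ∧ Function.Injective v ∧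
    (∀ i, IsEdge P (v i) (v (i + 1))) ∧
    ∀ F, IsFacet P F → ∃ (a : ZMod N) (k : ℕ), 0 < k ∧ ∀ i, v i ∈ F ↔ ∃ j < k, i = a + (j : ℕ)

/-! ## words: signed permutations as lists of letters `±1, …, ±n` -/

/-- `w` is a signed permutation of `1, …, n` -/
def SW (n : ℕ) (w : List ℤ) : Prop := (w.map Int.natAbs).Perm (List.range' 1 n)

/-- two words are adjacent: swap of two neighbouring letters, or change of the sign of the last
letter -/
def Adj (u v : List ℤ) : Prop :=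
  (∃ (α : List ℤ) (a b : ℤ) (β : List ℤ), u = α ++ a :: b :: β ∧ v = α ++ b :: a :: β) ∨
  (∃ (α : List ℤ) (a : ℤ), u = α ++ [a] ∧ v = α ++ [-a])

/-- the sign vector of the first `k` letters of `w` -/
def sv (n : ℕ) (w : List ℤ) (k : ℕ) : Fin n → ℤ := fun i =>
  if (((i : ℕ) : ℤ) + 1) ∈ w.take k then 1
  else if (-(((i : ℕ) : ℤ) + 1)) ∈ w.take k then -1 else 0

/-- the signed unit vector of a letter -/
def ev (n : ℕ) (a : ℤ) : Fin n → ℝ := fun i =>
  if a = ((i : ℕ) : ℤ) + 1 then 1 else if a = -(((i : ℕ) : ℤ) + 1) then -1 else 0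

/-- the vector of a word: the letter at position `j` (from `0`) contributes `n - j` -/
def vec (n : ℕ) : List ℤ → (Fin n → ℝ)
  | [] => 0
  | a :: l => fun i => ((l.length : ℝ) + 1) * ev n a i + vec n l i

/-- GEO1: adjacent words give edges, and `vec` is injective on words -/
def StmGeo1 : Prop := ∀ n : ℕ, 1 ≤ n →
  (∀ u v : List ℤ, SW n u → SW n v → vec n u = vec n v → u = v) ∧
  (∀ u v : List ℤ, SW n u → Adj u v → IsEdge (permB n) (vec n u) (vec n v))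

/-- GEO2: every facet is given by a sign vector `s`, and it contains the vertex of the word `w`
iff `s` is the sign vector of an initial segment of `w` -/
def StmGeo2 : Prop := ∀ n : ℕ, 1 ≤ n → ∀ F, IsFacet (permB n) F →
  ∃ s : Fin n → ℤ, (∀ i, s i = 0 ∨ s i = 1 ∨ s i = -1) ∧ s ≠ 0 ∧
    ∀ w : List ℤ, SW n w → (vec n w ∈ F ↔ ∃ k, 1 ≤ k ∧ k ≤ n ∧ s = sv n w k)

/-- the combinatorial part -/
def StmComb : Prop := ∀ n : ℕ, 2 ≤ n → ∃ c : ZMod (3 ^ n - 1) → List ℤ,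
  (∀ i, SW n (c i)) ∧ Function.Injective c ∧ (∀ i, Adj (c i) (c (i + 1))) ∧
  ∀ s : Fin n → ℤ, (∀ i, s i = 0 ∨ s i = 1 ∨ s i = -1) → s ≠ 0 →
    ∃ (a : ZMod (3 ^ n - 1)) (k : ℕ), 0 < k ∧
      ∀ i, (∃ q, 1 ≤ q ∧ q ≤ n ∧ s = sv n (c i) q) ↔ ∃ j < k, i = a + (j : ℕ)

/-- the final assembly -/
theorem assemble (h1 : StmGeo1) (h2 : StmGeo2) (h3 : StmComb) :
    ∀ n : ℕ, 2 ≤ n → FacetHamiltonian (permB n) := by
  intro n hn
  obtain ⟨c, hc1, hc2, hc3, hc4⟩ := h3 n hn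
  obtain ⟨g1, g2⟩ := h1 n (by omega)
  refine ⟨3 ^ n - 1, fun i => vec n (c i), ?_, ?_, ?_, ?_⟩
  · have : 3 ^ 2 ≤ 3 ^ n := Nat.pow_le_pow_right (by norm_num) hn
    omega
  · intro i j hij
    exact hc2 (g1 _ _ (hc1 i) (hc1 j) hij)
  · intro i
    exact g2 _ _ (hc1 i) (hc3 i)
  · intro F hF
    obtain ⟨s, hs1, hs2, hs3⟩ := h2 n (by omega) F hF
    obtain ⟨a, k, hk, h⟩ := hc4 s hs1 hs2
    refine ⟨a, k, hk, fun i => ?_⟩
    rw [hs3 _ (hc1 i)]
    exact h i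

end Pool.Agent.R322.FH
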