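import Mathlib
import Pool.Agent.R322.FH.Defs

/-!
# GEO1: adjacent words give edges of the type B permutahedron (helper258 for helper322)
-/

set_option autoImplicit false

namespace Pool.Agent.R322.FH

open Finset

/-! ### coordinates of `vec` -/

theorem ev_zero (n : ℕ) (a : ℤ) (i : Fin n) (h : a.natAbs ≠ (i : ℕ) + 1) : ev n a i = 0 := by
  unfold ev
  rw [if_neg (by omega), if_neg (by omega)]

theorem ev_pos (n : ℕ) (i : Fin n) : ev n (((i : ℕ) : ℤ) + 1) i = 1 := by
  unfold ev
  rw [if_pos rfl]

theorem ev_neg (n : ℕ) (i : Fin n) : ev n (-(((i : ℕ) : ℤ) + 1)) i = -1 := by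
  unfold ev
  rw [if_neg (by omega), if_pos rfl]

theorem ev_pm (n : ℕ) (a : ℤ) (i : Fin n) (h : a.natAbs = (i : ℕ) + 1) :
    ev n a i = 1 ∨ ev n a i = -1 := by
  rcases Int.natAbs_eq a with h1 | h1
  · left
    have : a = ((i : ℕ) : ℤ) + 1 := by omega
    rw [this, ev_pos]
  · right
    have : a = -(((i : ℕ) : ℤ) + 1) := by omega
    rw [this, ev_neg]

theorem ev_sq (n : ℕ) (a : ℤ) (h1 : 1 ≤ a.natAbs) (h2 : a.natAbs ≤ n) :
    ∑ i, (ev n a i) ^ 2 = 1 := by
  rw [Finset.sum_eq_single (⟨a.natAbs - 1, by omega⟩ : Fin n)]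
  · rcases ev_pm n a ⟨a.natAbs - 1, by omega⟩ (by simp; omega) with h | h <;> rw [h] <;> norm_num
  · intro i _ hi
    rw [ev_zero n a i]
    · norm_num
    · intro h
      apply hi
      apply Fin.ext
      simp
      omega
  · intro h
    exact absurd (mem_univ _) h

theorem vec_zero (n : ℕ) (l : List ℤ) (i : Fin n) (h : (i : ℕ) + 1 ∉ l.map Int.natAbs) :
    vec n l i = 0 := by
  induction l with
  | nil => rfl
  | cons a l ih =>
    rw [List.map_cons, List.mem_cons, not_or] at h
    change ((l.length : ℝ) + 1) * ev n a i + vec n l i = 0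
    rw [ev_zero n a i (fun h' => h.1 h'.symm), ih h.2]
    simp

theorem vec_cons_self (n : ℕ) (a : ℤ) (l : List ℤ) (i : Fin n) (ha : a.natAbs = (i : ℕ) + 1)
    (h : ((a :: l).map Int.natAbs).Nodup) :
    vec n (a :: l) i = ((l.length : ℝ) + 1) * ev n a i := by
  rw [List.map_cons, List.nodup_cons] at h
  change ((l.length : ℝ) + 1) * ev n a i + vec n l i = _
  rw [vec_zero n l i (by rw [← ha]; exact h.1), add_zero]

theorem vec_cons_other (n : ℕ) (a : ℤ) (l : List ℤ) (i : Fin n) (ha : a.natAbs ≠ (i : ℕ) + 1) :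
    vec n (a :: l) i = vec n l i := by
  change ((l.length : ℝ) + 1) * ev n a i + vec n l i = _
  rw [ev_zero n a i ha, mul_zero, zero_add]

theorem abs_vec_self (n : ℕ) (a : ℤ) (l : List ℤ) (i : Fin n) (ha : a.natAbs = (i : ℕ) + 1)
    (h : ((a :: l).map Int.natAbs).Nodup) :
    |vec n (a :: l) i| = (l.length : ℝ) + 1 := by
  rw [vec_cons_self n a l i ha h, abs_mul]
  have h1 : |ev n a i| = 1 := by
    rcases ev_pm n a i ha with h | h <;> rw [h] <;> simp
  rw [h1, mul_one, abs_of_nonneg (by positivity)]

theorem vec_le (n : ℕ) (l : List ℤ) (i : Fin n) (h : (l.map Int.natAbs).Nodup) :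
    |vec n l i| ≤ l.length := by
  induction l with
  | nil => simp [vec]
  | cons a l ih =>
    by_cases ha : a.natAbs = (i : ℕ) + 1
    · rw [abs_vec_self n a l i ha h]
      simp
    · rw [vec_cons_other n a l i ha]
      have := ih (by rw [List.map_cons, List.nodup_cons] at h; exact h.2)
      push_cast [List.length_cons]
      linarith

theorem vec_ex (n : ℕ) (l : List ℤ) (i : Fin n) (h : (l.map Int.natAbs).Nodup)
    (hi : (i : ℕ) + 1 ∈ l.map Int.natAbs) :
    ∃ (k : ℕ) (ε : ℝ), k < l.length ∧ (ε = 1 ∨ ε = -1) ∧ vec n l i = ε * ((k : ℝ) + 1) := by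
  induction l with
  | nil => simp at hi
  | cons a l ih =>
    by_cases ha : a.natAbs = (i : ℕ) + 1
    · refine ⟨l.length, ev n a i, by simp, ev_pm n a i ha, ?_⟩
      rw [vec_cons_self n a l i ha h, mul_comm]
    · have h2 : (i : ℕ) + 1 ∈ l.map Int.natAbs := by
        rw [List.map_cons, List.mem_cons] at hi
        exact hi.resolve_left (fun h' => ha h'.symm)
      obtain ⟨k, ε, hk, hε, hv⟩ := ih (by rw [List.map_cons, List.nodup_cons] at h; exact h.2) h2
      refine ⟨k, ε, by rw [List.length_cons]; omega, hε, ?_⟩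
      rw [vec_cons_other n a l i ha, hv]

theorem vec_inj2 (n : ℕ) (l : List ℤ) (i j : Fin n) (h : (l.map Int.natAbs).Nodup)
    (hi : (i : ℕ) + 1 ∈ l.map Int.natAbs) (hj : (j : ℕ) + 1 ∈ l.map Int.natAbs)
    (hij : |vec n l i| = |vec n l j|) : i = j := by
  induction l with
  | nil => simp at hi
  | cons a l ih =>
    have h' : (l.map Int.natAbs).Nodup := by rw [List.map_cons, List.nodup_cons] at h; exact h.2
    by_cases hai : a.natAbs = (i : ℕ) + 1 <;> by_cases haj : a.natAbs = (j : ℕ) + 1
    · apply Fin.ext; omega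
    · exfalso
      rw [abs_vec_self n a l i hai h, vec_cons_other n a l j haj] at hij
      have := vec_le n l j h'
      linarith
    · exfalso
      rw [abs_vec_self n a l j haj h, vec_cons_other n a l i hai] at hij
      have := vec_le n l i h'
      linarith
    · rw [vec_cons_other n a l i hai, vec_cons_other n a l j haj] at hij
      refine ih h' ?_ ?_ hij
      · rw [List.map_cons, List.mem_cons] at hi
        exact hi.resolve_left (fun h' => hai h'.symm)
      · rw [List.map_cons, List.mem_cons] at hj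
        exact hj.resolve_left (fun h' => haj h'.symm)

theorem sw_nodup {n : ℕ} {w : List ℤ} (h : SW n w) : (w.map Int.natAbs).Nodup :=
  (h.nodup_iff).2 List.nodup_range'

theorem sw_mem {n : ℕ} {w : List ℤ} (h : SW n w) (i : Fin n) : (i : ℕ) + 1 ∈ w.map Int.natAbs := by
  rw [h.mem_iff, List.mem_range'_1]
  have := i.2
  omega

theorem sw_len {n : ℕ} {w : List ℤ} (h : SW n w) : w.length = n := by
  have := h.length_eq
  rwa [List.length_map, List.length_range'] at this

theorem sw_range {n : ℕ} {w : List ℤ} (h : SW n w) {a : ℤ} (ha : a ∈ w) :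
    1 ≤ a.natAbs ∧ a.natAbs ≤ n := by
  have h1 : a.natAbs ∈ w.map Int.natAbs := List.mem_map_of_mem ha
  rw [h.mem_iff, List.mem_range'_1] at h1
  omega

/-- (V1) -/
theorem vec_mem {n : ℕ} {w : List ℤ} (h : SW n w) : vec n w ∈ signedPerms n := by
  have h1 : ∀ i : Fin n, ∃ (k : Fin n) (ε : ℝ), (ε = 1 ∨ ε = -1) ∧
      vec n w i = ε * (((k : ℕ) : ℝ) + 1) := by
    intro i
    obtain ⟨k, ε, hk, hε, hv⟩ := vec_ex n w i (sw_nodup h) (sw_mem h i)
    rw [sw_len h] at hk
    exact ⟨⟨k, hk⟩, ε, hε, hv⟩
  choose k ε hε hv using h1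
  have habs : ∀ i, |vec n w i| = ((k i : ℕ) : ℝ) + 1 := by
    intro i
    rw [hv i, abs_mul]
    have : |ε i| = 1 := by rcases hε i with h | h <;> rw [h] <;> simp
    rw [this, one_mul, abs_of_nonneg (by positivity)]
  have hinj : Function.Injective k := by
    intro i j hij
    refine vec_inj2 n w i j (sw_nodup h) (sw_mem h i) (sw_mem h j) ?_
    rw [habs, habs, hij]
  exact ⟨Equiv.ofBijective k (Finite.injective_iff_bijective.1 hinj), ε, hε, fun i => by
    rw [hv i]; rfl⟩

/-- (a) -/
theorem vec_inj (n : ℕ) : ∀ (l l' : List ℤ), l.length = l'.length → (l.map Int.natAbs).Nodup →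
    (l'.map Int.natAbs).Nodup → (∀ a ∈ l, 1 ≤ a.natAbs ∧ a.natAbs ≤ n) → vec n l = vec n l' →
    l = l' := by
  intro l
  induction l with
  | nil =>
    intro l' hlen _ _ _ _
    exact (List.length_eq_zero_iff.1 hlen.symm).symm
  | cons a t ih =>
    intro l' hlen hn hn' hr hv
    cases l' with
    | nil => simp at hlen
    | cons a' t' =>
      have hlen' : t.length = t'.length := by simpa using hlen
      have ha := hr a (List.mem_cons_self)
      set i : Fin n := ⟨a.natAbs - 1, by omega⟩ with hi
      have hai : a.natAbs = (i : ℕ) + 1 := by rw [hi]; simp; omega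
      have h1 := congrFun hv i
      have ht' : (t'.map Int.natAbs).Nodup := by
        rw [List.map_cons, List.nodup_cons] at hn'; exact hn'.2
      have hai' : a'.natAbs = (i : ℕ) + 1 := by
        by_contra hne
        rw [vec_cons_other n a' t' i hne] at h1
        have h2 := abs_vec_self n a t i hai hn
        rw [h1] at h2
        have h3 := vec_le n t' i ht'
        rw [← hlen'] at h3
        linarith
      have haa : a = a' := by
        rw [vec_cons_self n a t i hai hn, vec_cons_self n a' t' i hai' hn', hlen'] at h1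
        have h2 : ev n a i = ev n a' i := by
          have h3 : ((t'.length : ℝ) + 1) ≠ 0 := by positivity
          exact mul_left_cancel₀ h3 h1
        rcases Int.natAbs_eq a with h3 | h3 <;> rcases Int.natAbs_eq a' with h4 | h4
        · omega
        · exfalso
          have h5 : a = ((i : ℕ) : ℤ) + 1 := by omega
          have h6 : a' = -(((i : ℕ) : ℤ) + 1) := by omega
          rw [h5, h6, ev_pos, ev_neg] at h2
          norm_num at h2
        · exfalso
          have h5 : a' = ((i : ℕ) : ℤ) + 1 := by omega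
          have h6 : a = -(((i : ℕ) : ℤ) + 1) := by omega
          rw [h5, h6, ev_pos, ev_neg] at h2
          norm_num at h2
        · omega
      subst haa
      have htt : t = t' := by
        refine ih t' hlen' ?_ ht' (fun b hb => hr b (List.mem_cons_of_mem _ hb)) ?_
        · rw [List.map_cons, List.nodup_cons] at hn; exact hn.2
        · funext j
          have h3 := congrFun hv j
          change ((t.length : ℝ) + 1) * ev n a j + vec n t j
            = ((t'.length : ℝ) + 1) * ev n a j + vec n t' j at h3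
          rw [hlen'] at h3
          linarith
      rw [htt]

/-! ### integrality -/

theorem sp_int {n : ℕ} {y : Fin n → ℝ} (hy : y ∈ signedPerms n) :
    ∃ Y : Fin n → ℤ, (∀ i, y i = Y i) ∧ (∀ i, Y i ≠ 0) ∧
      ∑ i, (Y i) ^ 2 = ∑ i : Fin n, (((i : ℕ) : ℤ) + 1) ^ 2 := by
  obtain ⟨σ, ε, hε, hv⟩ := hy
  have h1 : ∀ i, ∃ e : ℤ, (e = 1 ∨ e = -1) ∧ ε i = e := by
    intro i
    rcases hε i with h | h
    · exact ⟨1, Or.inl rfl, by rw [h]; norm_num⟩
    · exact ⟨-1, Or.inr rfl, by rw [h]; norm_num⟩
  choose e he he' using h1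
  refine ⟨fun i => e i * (((σ i : ℕ) : ℤ) + 1), ?_, ?_, ?_⟩
  · intro i
    rw [hv i, he' i]
    push_cast
    ring
  · intro i
    have : (((σ i : ℕ) : ℤ) + 1) ≠ 0 := by positivity
    rcases he i with h | h <;> simp [h] <;> omega
  · rw [← Equiv.sum_comp σ (fun i : Fin n => (((i : ℕ) : ℤ) + 1) ^ 2)]
    refine sum_congr rfl fun i _ => ?_
    change (e i * (((σ i : ℕ) : ℤ) + 1)) ^ 2 = _
    rcases he i with h | h <;> rw [h] <;> ring

theorem sp_sq {n : ℕ} {y z : Fin n → ℝ} (hy : y ∈ signedPerms n) (hz : z ∈ signedPerms n) :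
    ∑ i, (y i) ^ 2 = ∑ i, (z i) ^ 2 := by
  obtain ⟨Y, hY, _, hY2⟩ := sp_int hy
  obtain ⟨Z, hZ, _, hZ2⟩ := sp_int hz
  have h1 : ((∑ i, (Y i) ^ 2 : ℤ) : ℝ) = ((∑ i, (Z i) ^ 2 : ℤ) : ℝ) := by rw [hY2, hZ2]
  push_cast at h1
  simp only [hY, hZ]
  exact h1

theorem sp_dist {n : ℕ} {y z : Fin n → ℝ} (hy : y ∈ signedPerms n) (hz : z ∈ signedPerms n)
    (hne : y ≠ z) : 2 ≤ ∑ i, (y i - z i) ^ 2 := by
  obtain ⟨Y, hY, _, hY2⟩ := sp_int hy
  obtain ⟨Z, hZ, _, hZ2⟩ := sp_int hz
  have h1 : ∑ i, (Y i - Z i) ^ 2 = 2 * (∑ i, (Y i) ^ 2 - ∑ i, Y i * Z i) := by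
    have h2 : ∑ i, (Y i - Z i) ^ 2 = ∑ i, (Y i) ^ 2 + ∑ i, (Z i) ^ 2 - 2 * ∑ i, Y i * Z i := by
      rw [mul_sum, ← sum_add_distrib, ← sum_sub_distrib]
      refine sum_congr rfl fun i _ => ?_
      ring
    rw [h2, hZ2, hY2]
    ring
  have h2 : 0 < ∑ i, (Y i - Z i) ^ 2 := by
    obtain ⟨i, hi⟩ := Function.ne_iff.1 hne
    refine sum_pos' (fun i _ => sq_nonneg _) ⟨i, mem_univ i, ?_⟩
    have : Y i - Z i ≠ 0 := by
      intro h
      apply hi
      rw [hY, hZ]
      have : Y i = Z i := by omega
      rw [this]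
    positivity
  have h3 : 2 ≤ ∑ i, (Y i - Z i) ^ 2 := by
    rw [h1] at h2 ⊢
    omega
  have h4 : ((2 : ℤ) : ℝ) ≤ ((∑ i, (Y i - Z i) ^ 2 : ℤ) : ℝ) := by exact_mod_cast h3
  push_cast at h4
  simp only [hY, hZ]
  exact h4

/-! ### the edge lemma -/

theorem edge_of {n : ℕ} (S : Set (Fin n → ℝ)) (u v : Fin n → ℝ) (hu : u ∈ S) (hv : v ∈ S)
    (huv : u ≠ v) (c : Fin n → ℝ) (b : ℝ) (hub : ∑ i, c i * u i = b) (hvb : ∑ i, c i * v i = b)
    (hle : ∀ y ∈ S, ∑ i, c i * y i < b ∨ y = u ∨ y = v) : IsEdge (convexHull ℝ S) u v := by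
  have hseg : ∀ x ∈ segment ℝ u v, ∑ i, c i * x i = b := by
    intro x hx
    obtain ⟨s, t, hs, ht, hst, rfl⟩ := hx
    have : ∑ i, c i * (s • u + t • v) i = s * ∑ i, c i * u i + t * ∑ i, c i * v i := by
      rw [mul_sum, mul_sum, ← sum_add_distrib]
      refine sum_congr rfl fun i _ => ?_
      simp only [Pi.add_apply, Pi.smul_apply, smul_eq_mul]
      ring
    rw [this, hub, hvb, ← add_mul, hst, one_mul]
  set T : Set (Fin n → ℝ) := {x | ∑ i, c i * x i < b ∨ x ∈ segment ℝ u v} with hT
  have hTle : ∀ x ∈ T, ∑ i, c i * x i ≤ b := by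
    intro x hx
    rcases hx with h | h
    · exact h.le
    · exact (hseg x h).le
  have hTconv : Convex ℝ T := by
    rw [convex_iff_forall_pos]
    intro x hx y hy s t hs ht hst
    have hlin : ∑ i, c i * (s • x + t • y) i = s * ∑ i, c i * x i + t * ∑ i, c i * y i := by
      rw [mul_sum, mul_sum, ← sum_add_distrib]
      refine sum_congr rfl fun i _ => ?_
      simp only [Pi.add_apply, Pi.smul_apply, smul_eq_mul]
      ring
    have hb : b = s * b + t * b := by rw [← add_mul, hst, one_mul]
    rcases hx with h | h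
    · left
      rw [hlin]
      have h1 := mul_lt_mul_of_pos_left h hs
      have h2 := mul_le_mul_of_nonneg_left (hTle y hy) ht.le
      linarith
    · rcases hy with h' | h'
      · left
        rw [hlin]
        have h1 := mul_lt_mul_of_pos_left h' ht
        have h2 := mul_le_mul_of_nonneg_left (hseg x h).le hs.le
        linarith
      · right
        exact (convex_segment u v) h h' hs.le ht.le hst
  have hST : S ⊆ T := by
    intro y hy
    rcases hle y hy with h | h | h
    · exact Or.inl h
    · exact Or.inr (h ▸ left_mem_segment ℝ u v)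
    · exact Or.inr (h ▸ right_mem_segment ℝ u v)
  have hPT : convexHull ℝ S ⊆ T := convexHull_min hST hTconv
  refine ⟨huv, c, b, fun x hx => hTle x (hPT hx), ?_⟩
  ext x
  constructor
  · intro hx
    refine ⟨?_, hseg x hx⟩
    exact (convex_convexHull ℝ S).segment_subset (subset_convexHull ℝ S hu)
      (subset_convexHull ℝ S hv) hx
  · rintro ⟨hx, hxb⟩
    rcases hPT hx with h | h
    · exact absurd hxb h.ne
    · exact h

theorem edge_of_dist {n : ℕ} (u v : Fin n → ℝ) (hu : u ∈ signedPerms n) (hv : v ∈ signedPerms n)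
    (huv : u ≠ v)
    (hle : ∀ y ∈ signedPerms n, ∑ i, (u i - v i) ^ 2 < ∑ i, (u i - y i) ^ 2 + ∑ i, (v i - y i) ^ 2 ∨
      y = u ∨ y = v) : IsEdge (permB n) u v := by
  have hexp : ∀ x y : Fin n → ℝ, ∑ i, (x i - y i) ^ 2
      = ∑ i, (x i) ^ 2 + ∑ i, (y i) ^ 2 - 2 * ∑ i, x i * y i := by
    intro x y
    rw [mul_sum, ← sum_add_distrib, ← sum_sub_distrib]
    refine sum_congr rfl fun i _ => ?_
    ring
  have hlin : ∀ y : Fin n → ℝ, ∑ i, (u i + v i) * y i = ∑ i, u i * y i + ∑ i, v i * y i := by
    intro y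
    rw [← sum_add_distrib]
    refine sum_congr rfl fun i _ => ?_
    ring
  have hsq : ∀ y : Fin n → ℝ, ∑ i, y i * y i = ∑ i, (y i) ^ 2 := by
    intro y
    refine sum_congr rfl fun i _ => ?_
    ring
  have hcomm : ∑ i, v i * u i = ∑ i, u i * v i := by
    refine sum_congr rfl fun i _ => ?_
    ring
  refine edge_of (signedPerms n) u v hu hv huv (fun i => u i + v i)
    (∑ i, (u i) ^ 2 + ∑ i, u i * v i) ?_ ?_ ?_
  · rw [hlin, hsq, hcomm]
  · rw [hlin, hsq, sp_sq hv hu]
    ring
  · intro y hy
    rcases hle y hy with h | h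
    · left
      rw [hlin]
      rw [hexp, hexp, hexp, sp_sq hv hu, sp_sq hy hu] at h
      linarith
    · exact Or.inr h

/-! ### words -/

theorem vec_append_sub (n : ℕ) (α γ γ' : List ℤ) (h : γ.length = γ'.length) (i : Fin n) :
    vec n (α ++ γ) i - vec n (α ++ γ') i = vec n γ i - vec n γ' i := by
  induction α with
  | nil => rfl
  | cons a α ih =>
    change (((α ++ γ).length : ℝ) + 1) * ev n a i + vec n (α ++ γ) i
      - ((((α ++ γ').length : ℝ) + 1) * ev n a i + vec n (α ++ γ') i) = _
    rw [List.length_append, List.length_append, h, ← ih]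
    ring

theorem sw_adj {n : ℕ} {u v : List ℤ} (hu : SW n u) (h : Adj u v) : SW n v := by
  rcases h with ⟨α, a, b, β, rfl, rfl⟩ | ⟨α, a, rfl, rfl⟩
  · unfold SW at *
    refine List.Perm.trans ?_ hu
    refine List.Perm.map _ ?_
    exact List.Perm.append_left α (List.Perm.swap a b β)
  · unfold SW at *
    simpa [List.map_append] using hu

theorem stmGeo1 : StmGeo1 := by
  intro n hn
  refine ⟨?_, ?_⟩
  · intro u v hu hv huv
    exact vec_inj n u v ((sw_len hu).trans (sw_len hv).symm) (sw_nodup hu) (sw_nodup hv)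
      (fun a ha => sw_range hu ha) huv
  · intro u v hu hadj
    have hv : SW n v := sw_adj hu hadj
    have hu' := vec_mem hu
    have hv' := vec_mem hv
    have hinj : u ≠ v → vec n u ≠ vec n v := by
      intro h h'
      exact h (vec_inj n u v ((sw_len hu).trans (sw_len hv).symm) (sw_nodup hu) (sw_nodup hv)
        (fun a ha => sw_range hu ha) h')
    have hnd := sw_nodup hu
    rcases hadj with ⟨α, a, b, β, rfl, rfl⟩ | ⟨α, a, rfl, rfl⟩
    · have ha := sw_range hu (a := a) (by simp)
      have hb := sw_range hu (a := b) (by simp)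
      have hab : a.natAbs ≠ b.natAbs := by
        rw [List.map_append, List.nodup_append] at hnd
        have h1 := hnd.2.1
        rw [List.map_cons, List.map_cons, List.nodup_cons] at h1
        intro h
        exact h1.1 (by rw [h]; exact List.mem_cons_self)
      have hne : α ++ a :: b :: β ≠ α ++ b :: a :: β := by
        intro h
        rw [List.append_cancel_left_eq] at h
        have : a = b := by
          have := List.cons.inj h
          exact this.1
        exact hab (by rw [this])
      have hD : ∑ i, (vec n (α ++ a :: b :: β) i - vec n (α ++ b :: a :: β) i) ^ 2 = 2 := by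
        have h1 : ∀ i, (vec n (α ++ a :: b :: β) i - vec n (α ++ b :: a :: β) i) ^ 2
            = (ev n a i) ^ 2 + (ev n b i) ^ 2 := by
          intro i
          rw [vec_append_sub n α _ _ (by simp)]
          change ((((b :: β).length : ℝ) + 1) * ev n a i + (((β.length : ℝ) + 1) * ev n b i + vec n β i)
            - ((((a :: β).length : ℝ) + 1) * ev n b i + (((β.length : ℝ) + 1) * ev n a i + vec n β i))) ^ 2 = _
          have h2 : ev n a i * ev n b i = 0 := by
            by_cases h : a.natAbs = (i : ℕ) + 1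
            · rw [ev_zero n b i (by omega), mul_zero]
            · rw [ev_zero n a i h, zero_mul]
          push_cast [List.length_cons]
          linear_combination (-2) * h2
        rw [sum_congr rfl fun i _ => h1 i, sum_add_distrib, ev_sq n a ha.1 ha.2, ev_sq n b hb.1 hb.2]
        norm_num
      refine edge_of_dist _ _ hu' hv' (hinj hne) fun y hy => ?_
      by_cases h1 : y = vec n (α ++ a :: b :: β)
      · exact Or.inr (Or.inl h1)
      by_cases h2 : y = vec n (α ++ b :: a :: β)
      · exact Or.inr (Or.inr h2)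
      left
      rw [hD]
      have h3 := sp_dist hu' hy (fun h => h1 h.symm)
      have h4 := sp_dist hv' hy (fun h => h2 h.symm)
      linarith
    · have ha := sw_range hu (a := a) (by simp)
      set U := vec n (α ++ [a]) with hU
      set V := vec n (α ++ [-a]) with hV
      have hne : α ++ [a] ≠ α ++ [-a] := by
        intro h
        rw [List.append_cancel_left_eq] at h
        have : a = -a := (List.cons.inj h).1
        omega
      set i0 : Fin n := ⟨a.natAbs - 1, by omega⟩ with hi0
      have hai : a.natAbs = (i0 : ℕ) + 1 := by rw [hi0]; simp; omega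
      have hdiff : ∀ i, U i - V i = ev n a i - ev n (-a) i := by
        intro i
        rw [hU, hV, vec_append_sub n α _ _ (by simp)]
        simp [vec]
      have hother : ∀ i, i ≠ i0 → U i = V i := by
        intro i hi
        have h1 := hdiff i
        rw [ev_zero n a i (by intro h; apply hi; apply Fin.ext; omega),
          ev_zero n (-a) i (by rw [Int.natAbs_neg]; intro h; apply hi; apply Fin.ext; omega)] at h1
        linarith
      have hU0 : U i0 = ev n a i0 := by
        have hg : ∀ (α : List ℤ), (((α ++ [a]).map Int.natAbs).Nodup) →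
            vec n (α ++ [a]) i0 = ev n a i0 := by
          intro α
          induction α with
          | nil => intro _; simp [vec]
          | cons c α ih =>
            intro hnd
            rw [List.cons_append, List.map_cons, List.nodup_cons] at hnd
            rw [List.cons_append, vec_cons_other n c (α ++ [a]) i0, ih hnd.2]
            intro h
            apply hnd.1
            rw [h, ← hai]
            exact List.mem_map_of_mem (by simp)
        exact hg α hnd
      have hev : ev n (-a) i0 = - ev n a i0 := by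
        rcases Int.natAbs_eq a with h3 | h3
        · have h5 : a = ((i0 : ℕ) : ℤ) + 1 := by omega
          rw [h5, ev_pos, ev_neg]
        · have h5 : a = -(((i0 : ℕ) : ℤ) + 1) := by omega
          rw [h5, neg_neg, ev_pos, ev_neg, neg_neg]
      have hV0 : V i0 = - ev n a i0 := by
        have := hdiff i0
        rw [hev, hU0] at this
        linarith
      have hpm : ev n a i0 = 1 ∨ ev n a i0 = -1 := ev_pm n a i0 hai
      have hesq : (ev n a i0) ^ 2 = 1 := by rcases hpm with h | h <;> rw [h] <;> norm_num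
      have hsplit : ∀ f : Fin n → ℝ, ∑ i, f i = f i0 + ∑ i ∈ univ.erase i0, f i := by
        intro f
        rw [add_sum_erase _ _ (mem_univ i0)]
      have hD : ∑ i, (U i - V i) ^ 2 = 4 := by
        rw [hsplit, hU0, hV0, sum_eq_zero]
        · linear_combination 4 * hesq
        · intro i hi
          rw [hother i (ne_of_mem_erase hi)]
          ring
      refine edge_of_dist _ _ hu' hv' (hinj hne) fun y hy => ?_
      obtain ⟨Y, hY, hY0, _⟩ := sp_int hy
      have hE : ∑ i, (U i - y i) ^ 2 + ∑ i, (V i - y i) ^ 2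
          = 2 + 2 * (y i0) ^ 2 + 2 * ∑ i ∈ univ.erase i0, (U i - y i) ^ 2 := by
        rw [hsplit (fun i => (U i - y i) ^ 2), hsplit (fun i => (V i - y i) ^ 2)]
        have h1 : ∑ i ∈ univ.erase i0, (V i - y i) ^ 2 = ∑ i ∈ univ.erase i0, (U i - y i) ^ 2 := by
          refine sum_congr rfl fun i hi => ?_
          rw [hother i (ne_of_mem_erase hi)]
        rw [h1, hU0, hV0]
        linear_combination 2 * hesq
      have hsnn : 0 ≤ ∑ i ∈ univ.erase i0, (U i - y i) ^ 2 := sum_nonneg fun i _ => sq_nonneg _
      have hy1 : 1 ≤ (Y i0) ^ 2 := by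
        have := hY0 i0
        have : 0 < (Y i0) ^ 2 := by positivity
        omega
      have hy1' : (1 : ℝ) ≤ (y i0) ^ 2 := by
        rw [hY i0]
        exact_mod_cast hy1
      by_cases hlt : ∑ i, (U i - V i) ^ 2 < ∑ i, (U i - y i) ^ 2 + ∑ i, (V i - y i) ^ 2
      · exact Or.inl hlt
      · right
        rw [hD, hE] at hlt
        have hs0 : ∑ i ∈ univ.erase i0, (U i - y i) ^ 2 = 0 := by linarith
        have hy2 : (y i0) ^ 2 = 1 := by linarith
        have heq : ∀ i, i ≠ i0 → U i = y i := by
          intro i hi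
          have := (sum_eq_zero_iff_of_nonneg fun i _ => sq_nonneg (U i - y i)).1 hs0 i
            (mem_erase.2 ⟨hi, mem_univ i⟩)
          have := pow_eq_zero_iff (two_ne_zero) |>.1 this
          linarith
        have hy3 : y i0 = ev n a i0 ∨ y i0 = - ev n a i0 := by
          have h1 : (y i0 - ev n a i0) * (y i0 + ev n a i0) = 0 := by
            linear_combination hy2 - hesq
          rcases mul_eq_zero.1 h1 with h | h
          · left; linarith
          · right; linarith
        rcases hy3 with h | h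
        · left
          funext i
          by_cases hi : i = i0
          · rw [hi, h, hU0]
          · exact (heq i hi).symm
        · right
          funext i
          by_cases hi : i = i0
          · rw [hi, h, hV0]
          · rw [← heq i hi, hother i hi]

end Pool.Agent.R322.FH
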