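import Pool.Agent.R322.FH.Defs

/-!
# GEO2: the facets of the type B permutahedron
-/

set_option autoImplicit false

namespace Pool.Agent.R322.FH

/-! ## signed permutation vectors -/

theorem g2_mem_iff {n : ℕ} (y : Fin n → ℝ) :
    y ∈ signedPerms n ↔ ∃ σ : Equiv.Perm (Fin n), ∀ i, |y i| = ((σ i : ℕ) : ℝ) + 1 := by
  constructor
  · rintro ⟨σ, ε, hε, h⟩
    refine ⟨σ, fun i => ?_⟩
    have h0 : (0 : ℝ) ≤ ((σ i : ℕ) : ℝ) + 1 := by positivity
    rw [h i, abs_mul, abs_of_nonneg h0]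
    rcases hε i with h1 | h1 <;> rw [h1] <;> simp
  · rintro ⟨σ, h⟩
    refine ⟨σ, fun i => if 0 ≤ y i then 1 else -1, fun i => ?_, fun i => ?_⟩
    · by_cases h0 : 0 ≤ y i
      · left
        simp [h0]
      · right
        simp [h0]
    · rw [← h i]
      by_cases h0 : 0 ≤ y i
      · simp [h0, abs_of_nonneg h0]
      · have h1 : y i < 0 := not_le.mp h0
        simp [h0, abs_of_neg h1]

theorem g2_abs_pos {n : ℕ} {y : Fin n → ℝ} (hy : y ∈ signedPerms n) (i : Fin n) : 0 < |y i| := by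
  obtain ⟨σ, h⟩ := (g2_mem_iff y).1 hy
  rw [h i]
  positivity

theorem g2_ne {n : ℕ} {y : Fin n → ℝ} (hy : y ∈ signedPerms n) (i : Fin n) : y i ≠ 0 :=
  abs_pos.1 (g2_abs_pos hy i)

theorem g2_abs_inj {n : ℕ} {y : Fin n → ℝ} (hy : y ∈ signedPerms n) {i j : Fin n}
    (hij : |y i| = |y j|) : i = j := by
  obtain ⟨σ, h⟩ := (g2_mem_iff y).1 hy
  rw [h i, h j] at hij
  have h1 : ((σ i : ℕ) : ℝ) = ((σ j : ℕ) : ℝ) := by linarith
  have h2 : (σ i : ℕ) = (σ j : ℕ) := by exact_mod_cast h1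
  exact σ.injective (Fin.ext h2)

theorem g2_flip {n : ℕ} {y : Fin n → ℝ} (hy : y ∈ signedPerms n) (i : Fin n) :
    Function.update y i (-y i) ∈ signedPerms n := by
  obtain ⟨σ, h⟩ := (g2_mem_iff y).1 hy
  refine (g2_mem_iff _).2 ⟨σ, fun k => ?_⟩
  by_cases hk : k = i
  · subst hk
    rw [Function.update_self, abs_neg, h]
  · rw [Function.update_of_ne hk, h]

theorem g2_neg {n : ℕ} {y : Fin n → ℝ} (hy : y ∈ signedPerms n) :
    (fun i => - y i) ∈ signedPerms n := by
  obtain ⟨σ, h⟩ := (g2_mem_iff y).1 hy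
  refine (g2_mem_iff _).2 ⟨σ, fun k => ?_⟩
  rw [abs_neg, h]

theorem g2_swap {n : ℕ} {y : Fin n → ℝ} (hy : y ∈ signedPerms n) {i j : Fin n} (hij : i ≠ j)
    {p q : ℝ} (hp : |p| = |y j|) (hq : |q| = |y i|) :
    Function.update (Function.update y i p) j q ∈ signedPerms n := by
  obtain ⟨σ, h⟩ := (g2_mem_iff y).1 hy
  refine (g2_mem_iff _).2 ⟨(Equiv.swap i j).trans σ, fun k => ?_⟩
  by_cases hkj : k = j
  · subst hkj
    rw [Function.update_self, hq, h]
    simp
  · rw [Function.update_of_ne hkj]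
    by_cases hki : k = i
    · subst hki
      rw [Function.update_self, hp, h]
      simp
    · rw [Function.update_of_ne hki, h]
      simp [Equiv.swap_apply_of_ne_of_ne hki hkj]

theorem g2_finite (n : ℕ) : (signedPerms n).Finite := by
  have h1 : {f : Fin n → ℝ | ∀ i, f i ∈ ((fun z : ℤ => (z : ℝ)) '' Set.Icc (-(n : ℤ)) n)}.Finite :=
    Set.Finite.pi' fun _ => (Set.finite_Icc _ _).image _
  refine h1.subset ?_
  rintro y ⟨σ, ε, hε, h⟩ i
  have h2 : ((σ i : ℕ) : ℤ) + 1 ≤ n := by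
    have := (σ i).isLt
    omega
  rcases hε i with h3 | h3
  · refine ⟨((σ i : ℕ) : ℤ) + 1, ⟨by omega, h2⟩, ?_⟩
    rw [h i, h3]
    push_cast
    ring
  · refine ⟨-(((σ i : ℕ) : ℤ) + 1), ⟨by omega, by omega⟩, ?_⟩
    rw [h i, h3]
    push_cast
    ring

theorem g2_nonempty (n : ℕ) : (signedPerms n).Nonempty :=
  ⟨fun i => ((i : ℕ) : ℝ) + 1, (g2_mem_iff _).2 ⟨Equiv.refl _, fun i => by
    have h0 : (0 : ℝ) ≤ ((i : ℕ) : ℝ) + 1 := by positivity
    simp [abs_of_nonneg h0]⟩⟩

/-! ## the shape of the maximizers -/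

/-- `y` is good for the sign vector `s` -/
def G2Good {n : ℕ} (s : Fin n → ℤ) (y : Fin n → ℝ) : Prop :=
  (∀ i, s i ≠ 0 → 0 < (s i : ℝ) * y i) ∧ ∀ i j, s i ≠ 0 → s j = 0 → |y j| < |y i|

theorem g2_max {n : ℕ} {c : Fin n → ℝ} {M : ℝ} (hM : 0 < M) (hc : ∀ i, |c i| ≤ M)
    {y : Fin n → ℝ} (hy : y ∈ signedPerms n)
    (hmax : ∀ z ∈ signedPerms n, ∑ i, c i * z i ≤ ∑ i, c i * y i) {i : Fin n} (hi : |c i| = M) :
    0 < c i * y i ∧ ∀ j, |c j| < M → |y j| < |y i| := by
  have hci : c i ≠ 0 := by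
    intro h0
    rw [h0, abs_zero] at hi
    linarith
  have h1 : 0 < c i * y i := by
    by_contra hcon
    have h2 : c i * y i < 0 := lt_of_le_of_ne (not_lt.mp hcon) (mul_ne_zero hci (g2_ne hy i))
    have h3 := hmax _ (g2_flip hy i)
    have h4 : ∑ k, c k * (Function.update y i (-y i)) k - ∑ k, c k * y k = -2 * (c i * y i) := by
      rw [← Finset.sum_sub_distrib, Fintype.sum_eq_single i]
      · rw [Function.update_self]
        ring
      · intro k hk
        rw [Function.update_of_ne hk]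
        ring
    linarith
  refine ⟨h1, fun j hj => ?_⟩
  by_contra hcon
  have hij : i ≠ j := by
    rintro rfl
    linarith
  have h2 : |y i| < |y j| := by
    rcases lt_or_eq_of_le (not_lt.mp hcon) with h | h
    · exact h
    · exact absurd (g2_abs_inj hy h) hij
  -- signs
  obtain ⟨p, hp1, hp2⟩ : ∃ p : ℝ, |p| = |y j| ∧ c i * p = M * |y j| := by
    rcases lt_or_gt_of_ne hci with h | h
    · refine ⟨-|y j|, by simp, ?_⟩
      rw [← hi, abs_of_neg h]
      ring
    · refine ⟨|y j|, by simp, ?_⟩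
      rw [← hi, abs_of_pos h]
  obtain ⟨q, hq1, hq2⟩ : ∃ q : ℝ, |q| = |y i| ∧ c j * q = |c j| * |y i| := by
    rcases le_or_gt 0 (c j) with h | h
    · refine ⟨|y i|, by simp, ?_⟩
      rw [abs_of_nonneg h]
    · refine ⟨-|y i|, by simp, ?_⟩
      rw [abs_of_neg h]
      ring
  have h3 := hmax _ (g2_swap hy hij hp1 hq1)
  have h4 : ∑ k, c k * (Function.update (Function.update y i p) j q) k - ∑ k, c k * y k =
      (M * |y j| - c i * y i) + (|c j| * |y i| - c j * y j) := by
    rw [← Finset.sum_sub_distrib, Fintype.sum_eq_add i j hij]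
    · rw [Function.update_self, Function.update_of_ne hij, Function.update_self, hp2, hq2]
    · rintro k ⟨hk1, hk2⟩
      rw [Function.update_of_ne hk2, Function.update_of_ne hk1]
      ring
  have h5 : c i * y i ≤ M * |y i| := by
    rw [← hi, ← abs_mul]
    exact le_abs_self _
  have h6 : c j * y j ≤ |c j| * |y j| := by
    rw [← abs_mul]
    exact le_abs_self _
  have h7 : 0 < (M - |c j|) * (|y j| - |y i|) := mul_pos (by linarith) (by linarith)
  nlinarith

theorem g2_max_good {n : ℕ} {s : Fin n → ℤ} (hs : ∀ i, s i = 0 ∨ s i = 1 ∨ s i = -1)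
    {y : Fin n → ℝ} (hy : y ∈ signedPerms n)
    (hmax : ∀ z ∈ signedPerms n, ∑ i, (s i : ℝ) * z i ≤ ∑ i, (s i : ℝ) * y i) :
    G2Good s y := by
  have hc : ∀ i, |(s i : ℝ)| ≤ 1 := fun i => by
    rcases hs i with h | h | h <;> rw [h] <;> simp
  have hc1 : ∀ i, s i ≠ 0 → |(s i : ℝ)| = 1 := fun i h0 => by
    rcases hs i with h | h | h
    · exact absurd h h0
    · rw [h]
      simp
    · rw [h]
      simp
  refine ⟨fun i hi => (g2_max one_pos hc hy hmax (hc1 i hi)).1, fun i j hi hj => ?_⟩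
  refine (g2_max one_pos hc hy hmax (hc1 i hi)).2 j ?_
  rw [hj]
  simp

theorem g2_sum_good {n : ℕ} {s : Fin n → ℤ} (hs : ∀ i, s i = 0 ∨ s i = 1 ∨ s i = -1)
    {y : Fin n → ℝ} (hg : G2Good s y) :
    ∑ i, (s i : ℝ) * y i = ∑ i ∈ Finset.univ.filter (fun i => s i ≠ 0), |y i| := by
  rw [Finset.sum_filter]
  refine Finset.sum_congr rfl fun i _ => ?_
  by_cases h0 : s i = 0
  · simp [h0]
  · rw [if_pos h0]
    have h1 := hg.1 i h0
    rcases hs i with h | h | h
    · exact absurd h h0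
    · rw [h] at h1 ⊢
      simp at h1 ⊢
      rw [abs_of_pos h1]
    · rw [h] at h1 ⊢
      simp at h1 ⊢
      rw [abs_of_neg h1]

theorem g2_upper {n : ℕ} (A : Finset (Fin n)) (σ : Equiv.Perm (Fin n))
    (h : ∀ i ∈ A, ∀ j, j ∉ A → σ j < σ i) :
    IsUpperSet ((A.map σ.toEmbedding : Finset (Fin n)) : Set (Fin n)) := by
  intro a b hab ha
  simp only [Finset.coe_map, Equiv.coe_toEmbedding, Set.mem_image, Finset.mem_coe] at ha ⊢
  obtain ⟨i, hi, rfl⟩ := ha
  refine ⟨σ.symm b, ?_, by simp⟩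
  by_contra hcon
  have h1 := h i hi _ hcon
  rw [Equiv.apply_symm_apply] at h1
  exact absurd hab (not_le.mpr h1)

theorem g2_same {n : ℕ} {s : Fin n → ℤ} (hs : ∀ i, s i = 0 ∨ s i = 1 ∨ s i = -1)
    {y z : Fin n → ℝ} (hy : y ∈ signedPerms n) (hz : z ∈ signedPerms n)
    (hgy : G2Good s y) (hgz : G2Good s z) :
    ∑ i, (s i : ℝ) * y i = ∑ i, (s i : ℝ) * z i := by
  rw [g2_sum_good hs hgy, g2_sum_good hs hgz]
  obtain ⟨σ, h⟩ := (g2_mem_iff y).1 hy
  obtain ⟨τ, h'⟩ := (g2_mem_iff z).1 hz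
  set A : Finset (Fin n) := Finset.univ.filter (fun i => s i ≠ 0) with hA
  have e1 : IsUpperSet ((A.map σ.toEmbedding : Finset (Fin n)) : Set (Fin n)) := by
    refine g2_upper A σ fun i hi j hj => ?_
    have hi' : s i ≠ 0 := by simpa [hA] using hi
    have hj' : s j = 0 := by simpa [hA] using hj
    have h1 := hgy.2 i j hi' hj'
    rw [h i, h j] at h1
    have h2 : ((σ j : ℕ) : ℝ) < ((σ i : ℕ) : ℝ) := by linarith
    exact Fin.lt_def.mpr (by exact_mod_cast h2)
  have e2 : IsUpperSet ((A.map τ.toEmbedding : Finset (Fin n)) : Set (Fin n)) := by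
    refine g2_upper A τ fun i hi j hj => ?_
    have hi' : s i ≠ 0 := by simpa [hA] using hi
    have hj' : s j = 0 := by simpa [hA] using hj
    have h1 := hgz.2 i j hi' hj'
    rw [h' i, h' j] at h1
    have h2 : ((τ j : ℕ) : ℝ) < ((τ i : ℕ) : ℝ) := by linarith
    exact Fin.lt_def.mpr (by exact_mod_cast h2)
  have e3 : A.map σ.toEmbedding = A.map τ.toEmbedding := by
    rcases e1.total e2 with h3 | h3
    · exact Finset.eq_of_subset_of_card_le (Finset.coe_subset.1 h3) (by simp)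
    · exact (Finset.eq_of_subset_of_card_le (Finset.coe_subset.1 h3) (by simp)).symm
  have e4 : ∑ i ∈ A, |y i| = ∑ q ∈ A.map σ.toEmbedding, (((q : ℕ) : ℝ) + 1) := by
    rw [Finset.sum_map]
    exact Finset.sum_congr rfl fun i _ => h i
  have e5 : ∑ i ∈ A, |z i| = ∑ q ∈ A.map τ.toEmbedding, (((q : ℕ) : ℝ) + 1) := by
    rw [Finset.sum_map]
    exact Finset.sum_congr rfl fun i _ => h' i
  rw [e4, e5, e3]

/-! ## from the vertices to the polytope -/

theorem g2_cc {t u X Y b : ℝ} (ht : 0 ≤ t) (hu : 0 ≤ u) (htu : t + u = 1) (hX : X ≤ b)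
    (hY : Y ≤ b) : t * X + u * Y ≤ b := by
  calc t * X + u * Y ≤ t * b + u * b :=
        add_le_add (mul_le_mul_of_nonneg_left hX ht) (mul_le_mul_of_nonneg_left hY hu)
    _ = b := by rw [← add_mul, htu, one_mul]

theorem g2_cc1 {t u X Y b : ℝ} (ht : 0 < t) (hu : 0 < u) (htu : t + u = 1) (hX : X ≤ b)
    (hY : Y ≤ b) (h : t * X + u * Y = b) : X = b ∧ Y = b := by
  have h1 : t * (b - X) + u * (b - Y) = 0 := by
    have : t * b + u * b = b := by rw [← add_mul, htu, one_mul]
    linarith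
  have h2 : 0 ≤ t * (b - X) := mul_nonneg ht.le (by linarith)
  have h3 : 0 ≤ u * (b - Y) := mul_nonneg hu.le (by linarith)
  constructor
  · have h4 : t * (b - X) = 0 := by linarith
    rcases mul_eq_zero.1 h4 with h5 | h5 <;> linarith
  · have h4 : u * (b - Y) = 0 := by linarith
    rcases mul_eq_zero.1 h4 with h5 | h5 <;> linarith

theorem g2_hull {n : ℕ} {c c' : Fin n → ℝ} {b b' : ℝ}
    (h : ∀ y ∈ signedPerms n, ∑ i, c i * y i ≤ b)
    (h' : ∀ y ∈ signedPerms n, ∑ i, c' i * y i ≤ b')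
    (hh : ∀ y ∈ signedPerms n, ∑ i, c i * y i = b → ∑ i, c' i * y i = b') :
    ∀ x ∈ permB n, ∑ i, c i * x i ≤ b ∧ ∑ i, c' i * x i ≤ b' ∧
      (∑ i, c i * x i = b → ∑ i, c' i * x i = b') := by
  have hconv : Convex ℝ {x : Fin n → ℝ | ∑ i, c i * x i ≤ b ∧ ∑ i, c' i * x i ≤ b' ∧
      (∑ i, c i * x i = b → ∑ i, c' i * x i = b')} := by
    rintro x ⟨hx1, hx2, hx3⟩ y ⟨hy1, hy2, hy3⟩ t u ht hu htu
    have e1 : ∀ d : Fin n → ℝ, ∑ i, d i * (t • x + u • y) i =
        t * ∑ i, d i * x i + u * ∑ i, d i * y i := by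
      intro d
      rw [Finset.mul_sum, Finset.mul_sum, ← Finset.sum_add_distrib]
      refine Finset.sum_congr rfl fun i _ => ?_
      simp only [Pi.add_apply, Pi.smul_apply, smul_eq_mul]
      ring
    simp only [Set.mem_ofPred_eq, e1]
    refine ⟨g2_cc ht hu htu hx1 hy1, g2_cc ht hu htu hx2 hy2, ?_⟩
    · intro h0
      rcases ht.eq_or_lt with h1 | h1
      · subst h1
        have h2 : u = 1 := by linarith
        subst h2
        simp only [zero_mul, one_mul, zero_add] at h0 ⊢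
        exact hy3 h0
      · rcases hu.eq_or_lt with h2 | h2
        · subst h2
          have h3 : t = 1 := by linarith
          subst h3
          simp only [zero_mul, one_mul, add_zero] at h0 ⊢
          exact hx3 h0
        · obtain ⟨h3, h4⟩ := g2_cc1 h1 h2 htu hx1 hy1 h0
          rw [hx3 h3, hy3 h4, ← add_mul, htu, one_mul]
  intro x hx
  have hsub : signedPerms n ⊆ {x : Fin n → ℝ | ∑ i, c i * x i ≤ b ∧ ∑ i, c' i * x i ≤ b' ∧
      (∑ i, c i * x i = b → ∑ i, c' i * x i = b')} := fun y hy => ⟨h y hy, h' y hy, hh y hy⟩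
  exact convexHull_min hsub hconv hx


/-- the face of a sign vector -/
theorem g2_faceS {n : ℕ} {s : Fin n → ℤ} (hs : ∀ i, s i = 0 ∨ s i = 1 ∨ s i = -1) (hs0 : s ≠ 0) :
    ∃ H : ℝ, (∀ y ∈ signedPerms n, ∑ i, (s i : ℝ) * y i ≤ H) ∧
      (∀ y ∈ signedPerms n, ∑ i, (s i : ℝ) * y i = H ↔ G2Good s y) ∧
      IsFace (permB n) {x ∈ permB n | ∑ i, (s i : ℝ) * x i = H} ∧
      {x ∈ permB n | ∑ i, (s i : ℝ) * x i = H} ≠ permB n ∧
      {x ∈ permB n | ∑ i, (s i : ℝ) * x i = H}.Nonempty := by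
  obtain ⟨y0, hy0, hmax⟩ := Set.exists_max_image (signedPerms n)
    (fun y => ∑ i, (s i : ℝ) * y i) (g2_finite n) (g2_nonempty n)
  have hg0 : G2Good s y0 := g2_max_good hs hy0 hmax
  have hiff : ∀ y ∈ signedPerms n, ∑ i, (s i : ℝ) * y i = ∑ i, (s i : ℝ) * y0 i ↔ G2Good s y := by
    intro y hy
    constructor
    · intro h
      exact g2_max_good hs hy fun z hz => (hmax z hz).trans h.ge
    · intro h
      exact g2_same hs hy hy0 h hg0
  have hle : ∀ x ∈ permB n, ∑ i, (s i : ℝ) * x i ≤ ∑ i, (s i : ℝ) * y0 i := fun x hx =>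
    (g2_hull hmax hmax (fun y _ h => h) x hx).1
  refine ⟨∑ i, (s i : ℝ) * y0 i, hmax, hiff, ⟨fun i => (s i : ℝ), _, hle, rfl⟩, ?_,
    ⟨y0, subset_convexHull ℝ _ hy0, rfl⟩⟩
  · intro hcon
    have h1 : (fun i => - y0 i) ∈ permB n := subset_convexHull ℝ _ (g2_neg hy0)
    rw [← hcon] at h1
    have h2 := (hiff _ (g2_neg hy0)).1 h1.2
    obtain ⟨i, hi⟩ : ∃ i, s i ≠ 0 := by
      by_contra hall
      push Not at hall
      exact hs0 (funext hall)
    have h3 := h2.1 i hi
    have h4 := hg0.1 i hi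
    simp only [mul_neg] at h3
    linarith

/-- every facet is the face of a sign vector -/
theorem g2_facet {n : ℕ} (hn : 1 ≤ n) {F : Set (Fin n → ℝ)} (hF : IsFacet (permB n) F) :
    ∃ s : Fin n → ℤ, (∀ i, s i = 0 ∨ s i = 1 ∨ s i = -1) ∧ s ≠ 0 ∧
      ∀ y ∈ signedPerms n, y ∈ F ↔ G2Good s y := by
  obtain ⟨⟨c, b, hcb, rfl⟩, hne, hmaxF⟩ := hF
  have hn0 : Nonempty (Fin n) := ⟨⟨0, by omega⟩⟩
  by_cases hc0 : c = 0
  · exfalso
    subst hc0
    obtain ⟨y0, hy0⟩ := g2_nonempty n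
    by_cases hb : b = 0
    · apply hne
      subst hb
      ext x
      simp
    · have h1 : {x ∈ permB n | ∑ i, (0 : Fin n → ℝ) i * x i = b} = ∅ := by
        ext x
        simp only [Pi.zero_apply, zero_mul, Finset.sum_const_zero, Set.mem_ofPred_eq,
          Set.mem_empty_iff_false, iff_false, not_and]
        intro _ h
        exact hb h.symm
      obtain ⟨H, -, -, h2, h3, h4⟩ := g2_faceS (n := n) (s := fun _ => 1) (fun i => by simp)
        (fun h => by
          have := congrFun h (Classical.arbitrary (Fin n))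
          simp at this)
      have h5 := hmaxF _ h2 h3 (by rw [h1]; exact Set.empty_subset _)
      rw [h5, h1] at h4
      exact Set.not_nonempty_empty h4
  · obtain ⟨i0, -, hi0⟩ := Finset.exists_max_image (Finset.univ : Finset (Fin n)) (fun i => |c i|)
      Finset.univ_nonempty
    set M := |c i0| with hM
    have hMc : ∀ i, |c i| ≤ M := fun i => hi0 i (Finset.mem_univ i)
    have hM0 : 0 < M := by
      obtain ⟨i, hi⟩ : ∃ i, c i ≠ 0 := by
        by_contra hall
        push Not at hall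
        exact hc0 (funext hall)
      exact (abs_pos.2 hi).trans_le (hMc i)
    set s : Fin n → ℤ := fun i => if |c i| = M then (if 0 < c i then 1 else -1) else 0 with hsdef
    have hs : ∀ i, s i = 0 ∨ s i = 1 ∨ s i = -1 := by
      intro i
      simp only [hsdef]
      split_ifs <;> simp
    have hsne : ∀ i, s i ≠ 0 ↔ |c i| = M := by
      intro i
      simp only [hsdef]
      split_ifs <;> simp_all
    have hs0 : s ≠ 0 := by
      intro h
      exact (hsne i0).2 hM.symm (congrFun h i0)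
    have hcS : ∀ y ∈ signedPerms n, ∑ i, c i * y i ≤ b := fun y hy =>
      hcb y (subset_convexHull ℝ _ hy)
    have hgood : ∀ y ∈ signedPerms n, ∑ i, c i * y i = b → G2Good s y := by
      intro y hy hyb
      have hmx : ∀ z ∈ signedPerms n, ∑ i, c i * z i ≤ ∑ i, c i * y i := fun z hz =>
        (hcS z hz).trans hyb.ge
      refine ⟨fun i hi => ?_, fun i j hi hj => ?_⟩
      · have h1 := (g2_max hM0 hMc hy hmx ((hsne i).1 hi)).1
        have h2 := (hsne i).1 hi
        simp only [hsdef, h2, if_true]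
        by_cases h3 : 0 < c i
        · rw [if_pos h3]
          have := (pos_iff_pos_of_mul_pos h1).1 h3
          simpa using this
        · rw [if_neg h3]
          have h4 : c i < 0 := by
            rcases lt_trichotomy (c i) 0 with h | h | h
            · exact h
            · rw [h] at h1
              simp at h1
            · exact absurd h h3
          have := (neg_iff_neg_of_mul_pos h1).1 h4
          push_cast
          linarith
      · refine (g2_max hM0 hMc hy hmx ((hsne i).1 hi)).2 j ?_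
        refine lt_of_le_of_ne (hMc j) fun h => ?_
        exact (hsne j).2 h hj
    obtain ⟨H, h1, h2, h3, h4, -⟩ := g2_faceS hs hs0
    have h5 : {x ∈ permB n | ∑ i, c i * x i = b} ⊆ {x ∈ permB n | ∑ i, (s i : ℝ) * x i = H} := by
      rintro x ⟨hx1, hx2⟩
      exact ⟨hx1, (g2_hull hcS h1 (fun y hy h => (h2 y hy).2 (hgood y hy h)) x hx1).2.2 hx2⟩
    have h6 := hmaxF _ h3 h4 h5
    refine ⟨s, hs, hs0, fun y hy => ?_⟩
    rw [← h6, ← h2 y hy]
    exact ⟨fun h => h.2, fun h => ⟨subset_convexHull ℝ _ hy, h⟩⟩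

/-! ## words -/

theorem g2_ev_zero {n : ℕ} {a : ℤ} {i : Fin n} (h : a.natAbs ≠ (i : ℕ) + 1) : ev n a i = 0 := by
  have h1 : a ≠ ((i : ℕ) : ℤ) + 1 := by
    rintro rfl
    exact h (by omega)
  have h2 : a ≠ -(((i : ℕ) : ℤ) + 1) := by
    rintro rfl
    exact h (by omega)
  unfold ev
  rw [if_neg h1, if_neg h2]

theorem g2_vec_zero {n : ℕ} (i : Fin n) : ∀ w : List ℤ, (∀ a ∈ w, a.natAbs ≠ (i : ℕ) + 1) →
    vec n w i = 0 := by
  intro w
  induction w with
  | nil =>
    intro _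
    simp [vec]
  | cons a l ih =>
    intro h
    simp only [vec]
    rw [g2_ev_zero (h a (by simp)), ih fun b hb => h b (by simp [hb])]
    ring

theorem g2_vec_apply {n : ℕ} (i : Fin n) : ∀ w : List ℤ, (w.map Int.natAbs).Nodup →
    ∀ (j : ℕ) (hj : j < w.length), (w[j]).natAbs = (i : ℕ) + 1 →
      vec n w i = ((w.length : ℝ) - j) * ev n w[j] i := by
  intro w
  induction w with
  | nil =>
    intro _ j hj
    simp at hj
  | cons a l ih =>
    intro hnd j hj hw
    rw [List.map_cons, List.nodup_cons] at hnd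
    rcases j with _ | j
    · simp only [List.getElem_cons_zero] at hw ⊢
      simp only [vec]
      rw [g2_vec_zero i l]
      · simp
      · intro b hb hb'
        apply hnd.1
        rw [hw, ← hb']
        exact List.mem_map_of_mem hb
    · simp only [List.getElem_cons_succ] at hw ⊢
      simp only [vec]
      have hj' : j < l.length := by simpa using hj
      rw [ih hnd.2 j hj' hw, g2_ev_zero (a := a)]
      · simp only [List.length_cons]
        push_cast
        ring
      · intro ha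
        apply hnd.1
        rw [ha, ← hw]
        exact List.mem_map_of_mem (List.getElem_mem hj')

/-- the positions of the letters -/
theorem g2_pos {n : ℕ} {w : List ℤ} (hw : SW n w) :
    ∃ p : Fin n → Fin n, Function.Injective p ∧ ∃ e : Fin n → ℤ, (∀ i, e i = 1 ∨ e i = -1) ∧
      (∀ i, vec n w i = (e i : ℝ) * ((n : ℝ) - ((p i : ℕ) : ℝ))) ∧
      ∀ k i, sv n w k i = if (p i : ℕ) < k then e i else 0 := by
  have hlen : w.length = n := by
    have := hw.length_eq
    simpa using this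
  have hnd : (w.map Int.natAbs).Nodup := hw.nodup_iff.2 List.nodup_range'
  have hex : ∀ i : Fin n, ∃ j : Fin n, (w[(j : ℕ)]'(by rw [hlen]; exact j.isLt)).natAbs = (i : ℕ) + 1 := by
    intro i
    have h1 : (i : ℕ) + 1 ∈ w.map Int.natAbs := by
      rw [hw.mem_iff, List.mem_range'_1]
      have := i.isLt
      omega
    obtain ⟨a, ha, ha'⟩ := List.mem_map.1 h1
    obtain ⟨j, hj, hj'⟩ := List.getElem_of_mem ha
    refine ⟨⟨j, by rw [← hlen]; exact hj⟩, ?_⟩
    simp only [hj', ha']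
  choose p hp using hex
  have huniq : ∀ (i : Fin n) (j : ℕ) (hj : j < w.length), (w[j]).natAbs = (i : ℕ) + 1 →
      j = (p i : ℕ) := by
    intro i j hj h
    have h1 : (w.map Int.natAbs)[j]'(by simpa using hj) =
        (w.map Int.natAbs)[(p i : ℕ)]'(by simp [hlen]) := by
      simp only [List.getElem_map]
      rw [h, hp i]
    exact (hnd.getElem_inj_iff).1 h1
  have hlt : ∀ i, (p i : ℕ) < w.length := fun i => by rw [hlen]; exact (p i).isLt
  refine ⟨p, ?_, fun i => if w[(p i : ℕ)]'(hlt i) = ((i : ℕ) : ℤ) + 1 then 1 else -1, ?_, ?_, ?_⟩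
  · intro i i' h
    have h1 := hp i
    have h2 := hp i'
    simp only [h] at h1
    rw [h1] at h2
    exact Fin.ext (by omega)
  · intro i
    dsimp only
    split_ifs <;> simp
  · intro i
    rw [g2_vec_apply i w hnd (p i) (hlt i) (hp i), hlen, mul_comm]
    congr 1
    have h1 := hp i
    dsimp only
    by_cases h2 : w[(p i : ℕ)]'(hlt i) = ((i : ℕ) : ℤ) + 1
    · simp [ev, h2]
    · have h3 : w[(p i : ℕ)]'(hlt i) = -(((i : ℕ) : ℤ) + 1) := by omega
      rw [if_neg h2]
      simp only [ev]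
      rw [if_neg h2, if_pos h3]
      simp
  · intro k i
    have h1 := hp i
    have hmem : ∀ a : ℤ, a.natAbs = (i : ℕ) + 1 →
        (a ∈ w.take k ↔ (p i : ℕ) < k ∧ w[(p i : ℕ)]'(hlt i) = a) := by
      intro a ha
      rw [List.mem_take_iff_getElem]
      constructor
      · rintro ⟨j, hj, rfl⟩
        have h2 := huniq i j (by omega) ha
        subst h2
        exact ⟨by omega, rfl⟩
      · rintro ⟨h2, h3⟩
        exact ⟨p i, by have := hlt i; omega, h3⟩
    simp only [sv]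
    have m1 := hmem (((i : ℕ) : ℤ) + 1) (by omega)
    have m2 := hmem (-(((i : ℕ) : ℤ) + 1)) (by omega)
    by_cases hk : (p i : ℕ) < k
    · by_cases h2 : w[(p i : ℕ)]'(hlt i) = ((i : ℕ) : ℤ) + 1
      · rw [if_pos (m1.2 ⟨hk, h2⟩), if_pos hk, if_pos h2]
      · have h3 : w[(p i : ℕ)]'(hlt i) = -(((i : ℕ) : ℤ) + 1) := by omega
        rw [if_neg (fun h => h2 (m1.1 h).2), if_pos (m2.2 ⟨hk, h3⟩), if_pos hk, if_neg h2]
    · rw [if_neg (fun h => hk (m1.1 h).1), if_neg (fun h => hk (m2.1 h).1), if_neg hk]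

theorem stmGeo2 : StmGeo2 := by
  intro n hn F hF
  obtain ⟨s, hs, hs0, hsF⟩ := g2_facet hn hF
  refine ⟨s, hs, hs0, fun w hw => ?_⟩
  obtain ⟨p, hpinj, e, he, hv, hsv⟩ := g2_pos hw
  have habs : ∀ i, |vec n w i| = (n : ℝ) - ((p i : ℕ) : ℝ) := by
    intro i
    have h0 : ((p i : ℕ) : ℝ) < n := by exact_mod_cast (p i).isLt
    rw [hv i, abs_mul, abs_of_pos (sub_pos.2 h0)]
    rcases he i with h | h <;> rw [h] <;> simp
  have hS : vec n w ∈ signedPerms n := by
    rw [g2_mem_iff]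
    have hinj : Function.Injective fun i => Fin.rev (p i) := fun i j h =>
      hpinj (Fin.rev_injective h)
    refine ⟨Equiv.ofBijective _ (Finite.injective_iff_bijective.1 hinj), fun i => ?_⟩
    rw [habs i, Equiv.ofBijective_apply, Fin.val_rev]
    have h0 : (p i : ℕ) + 1 ≤ n := (p i).isLt
    rw [Nat.cast_sub h0]
    push_cast
    ring
  rw [hsF _ hS]
  have hpos : ∀ i, s i ≠ 0 → (0 < (s i : ℝ) * vec n w i ↔ s i = e i) := by
    intro i hi
    have h0 : ((p i : ℕ) : ℝ) < n := by exact_mod_cast (p i).isLt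
    have h1 : 0 < (n : ℝ) - ((p i : ℕ) : ℝ) := sub_pos.2 h0
    rw [hv i]
    rcases hs i with h | h | h
    · exact absurd h hi
    · rcases he i with h' | h' <;> rw [h, h'] <;> norm_num
    · rcases he i with h' | h' <;> rw [h, h'] <;> norm_num
  constructor
  · rintro ⟨hg1, hg2⟩
    obtain ⟨i1, hi1⟩ : ∃ i, s i ≠ 0 := by
      by_contra hall
      push Not at hall
      exact hs0 (funext hall)
    obtain ⟨i0, hi0, hmax⟩ := Finset.exists_max_image
      (Finset.univ.filter fun i => s i ≠ 0) (fun i => (p i : ℕ)) ⟨i1, by simp [hi1]⟩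
    have hi0' : s i0 ≠ 0 := by simpa using hi0
    refine ⟨(p i0 : ℕ) + 1, by omega, (p i0).isLt, ?_⟩
    funext i
    rw [hsv]
    by_cases hi : s i = 0
    · have h1 := hg2 i0 i hi0' hi
      rw [habs, habs] at h1
      have h2 : ((p i0 : ℕ) : ℝ) < ((p i : ℕ) : ℝ) := by linarith
      have h3 : (p i0 : ℕ) < (p i : ℕ) := by exact_mod_cast h2
      rw [if_neg (by omega), hi]
    · have h1 : (p i : ℕ) ≤ (p i0 : ℕ) := hmax i (by simp [hi])
      rw [if_pos (by omega)]
      exact (hpos i hi).1 (hg1 i hi)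
  · rintro ⟨k, hk1, hkn, hsk⟩
    have hsi : ∀ i, s i = if (p i : ℕ) < k then e i else 0 := fun i => by
      rw [hsk, hsv]
    have he0 : ∀ i, e i ≠ 0 := fun i => by
      rcases he i with h | h <;> rw [h] <;> norm_num
    refine ⟨fun i hi => (hpos i hi).2 ?_, fun i j hi hj => ?_⟩
    · have h1 := hsi i
      by_cases h2 : (p i : ℕ) < k
      · rw [if_pos h2] at h1
        exact h1
      · rw [if_neg h2] at h1
        exact absurd h1 hi
    · have h1 : (p i : ℕ) < k := by
        by_contra h2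
        have h3 := hsi i
        rw [if_neg h2] at h3
        exact hi h3
      have h2 : ¬ (p j : ℕ) < k := by
        intro h2
        have h3 := hsi j
        rw [if_pos h2, hj] at h3
        exact he0 j h3.symm
      rw [habs, habs]
      have h3 : ((p i : ℕ) : ℝ) < ((p j : ℕ) : ℝ) := by exact_mod_cast (by omega : (p i : ℕ) < (p j : ℕ))
      linarith

end Pool.Agent.R322.FH
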