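import Pool.Agent.R322.FH.Walk

/-!
# The inductive construction
-/

set_option autoImplicit false

namespace Pool.Agent.R322.FH

/-! ## signed words -/

theorem SW.length {n : ℕ} {w : List ℤ} (h : SW n w) : w.length = n := by
  have := h.length_eq
  simpa using this

theorem SW.adj {n : ℕ} {u v : List ℤ} (h : SW n u) (ha : Adj u v) : SW n v := by
  unfold SW at h ⊢
  rcases ha with ⟨α, a, b, β, rfl, rfl⟩ | ⟨α, a, rfl, rfl⟩
  · refine List.Perm.trans ?_ h
    exact ((List.Perm.swap a b β).append_left α).map _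
  · simpa using h

theorem WW.sw {n : ℕ} {u v : List ℤ} {C : List (List ℤ)} (h : WW u v C) (hu : SW n u) :
    SW n v ∧ ∀ w ∈ C, SW n w := by
  induction h with
  | nil u => exact ⟨hu, by simp⟩
  | cons ha _ ih =>
    have h1 := hu.adj ha
    obtain ⟨h2, h3⟩ := ih h1
    refine ⟨h2, fun w hw => ?_⟩
    rcases List.mem_cons.mp hw with rfl | hw
    · exact h1
    · exact h3 w hw

/-- signed subsets, as lists -/
def SS (n : ℕ) (S : List ℤ) : Prop :=
  (S.map Int.natAbs).Nodup ∧ ∀ a ∈ S, 1 ≤ a.natAbs ∧ a.natAbs ≤ n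

/-- the induction hypothesis -/
structure Hyp (n : ℕ) (w0 wK wL : List ℤ) (CL : List (List ℤ)) (AL : List (List ℤ × List ℤ))
    (mL : ℕ) (CR : List (List ℤ)) (AR : List (List ℤ × List ℤ)) (mR : ℕ) : Prop where
  sw : SW n w0
  left : Wk (w0, []) ([], wK) CL AL mL
  right : Wk ([], wK) (wL, []) CR AR mR
  cnt1 : CL.length + CR.length + n + 1 = 3 ^ n
  cnt2 : mL + mR + 1 = 3 ^ n
  cov : ∀ S, SS n S → ∃ q, (q ∈ (w0, []) :: AL ∨ q ∈ AR) ∧ q.1.Perm S

theorem hyp_one : Hyp 1 [1] [1] [-1] [] [([], [1])] 1 [[-1]] [([], [-1]), ([-1], [])] 1 where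
  sw := by unfold SW; decide
  left := Wk.one_ms (MS.down [] 1 [])
  right := Wk.cs (CS.f [] [] 1) (Wk.one_ms (MS.up [] (-1) []))
  cnt1 := by norm_num
  cnt2 := by norm_num
  cov := by
    intro S hS
    obtain ⟨h1, h2⟩ := hS
    match S, h1, h2 with
    | [], _, _ => exact ⟨([], [1]), by simp, List.Perm.refl _⟩
    | [a], _, h2 =>
      have h3 := h2 a (by simp)
      have h4 : a = 1 ∨ a = -1 := by omega
      rcases h4 with rfl | rfl
      · exact ⟨([1], []), by simp, List.Perm.refl _⟩
      · exact ⟨([-1], []), by simp, List.Perm.refl _⟩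
    | a :: b :: r, h1, h2 =>
      exfalso
      have h3 := h2 a (by simp)
      have h4 := h2 b (by simp)
      have h5 : a.natAbs = b.natAbs := by omega
      simp [h5] at h1

theorem bodd_of_even {m : ℕ} (h : m % 2 = 0) : m.bodd = false := by
  have := Nat.mod_two_of_bodd m
  cases hb : m.bodd
  · rfl
  · rw [hb] at this
    simp at this
    omega

theorem bodd_of_odd {m : ℕ} (h : m % 2 = 1) : m.bodd = true := by
  have := Nat.mod_two_of_bodd m
  cases hb : m.bodd
  · rw [hb] at this
    simp at this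
    omega
  · rfl

/-- the letters of a signed subset of `[n+1]` -/
theorem ss_cases {n : ℕ} {S : List ℤ} (hS : SS (n + 1) S) :
    SS n S ∨ (∃ S', SS n S' ∧ S.Perm (((n : ℤ) + 1) :: S')) ∨
      (∃ S', SS n S' ∧ S.Perm ((-((n : ℤ) + 1)) :: S')) := by
  obtain ⟨h1, h2⟩ := hS
  have key : ∀ y : ℤ, y.natAbs = n + 1 → y ∈ S → ∃ S', SS n S' ∧ S.Perm (y :: S') := by
    intro y hy hyS
    refine ⟨S.erase y, ?_, List.perm_cons_erase hyS⟩
    have hp := (List.perm_cons_erase hyS).map Int.natAbs
    have hn := hp.nodup_iff.mp h1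
    rw [List.map_cons, List.nodup_cons] at hn
    refine ⟨hn.2, ?_⟩
    intro a ha
    have h3 := h2 a (List.mem_of_mem_erase ha)
    refine ⟨h3.1, ?_⟩
    have h4 : a.natAbs ≠ n + 1 := by
      intro h5
      apply hn.1
      rw [hy, ← h5]
      exact List.mem_map_of_mem ha
    omega
  by_cases hx : ((n : ℤ) + 1) ∈ S
  · right; left
    exact key _ (by omega) hx
  · by_cases hmx : (-((n : ℤ) + 1)) ∈ S
    · right; right
      exact key _ (by omega) hmx
    · left
      refine ⟨h1, fun a ha => ?_⟩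
      have h3 := h2 a ha
      refine ⟨h3.1, ?_⟩
      by_contra h4
      have h5 : a = (n : ℤ) + 1 ∨ a = -((n : ℤ) + 1) := by omega
      rcases h5 with rfl | rfl
      · exact hx ha
      · exact hmx ha

theorem cov_new {n : ℕ} {w0 wK wL : List ℤ} {AL AR AL' AR' : List (List ℤ × List ℤ)}
    (T : List ℤ × List ℤ → Prop)
    (hcov : ∀ S, SS n S → ∃ q, (q ∈ (w0, []) :: AL ∨ q ∈ AR) ∧ q.1.Perm S)
    (hA : ∀ q ∈ (w0, ([] : List ℤ)) :: AL, T ((((n : ℤ) + 1) :: q.1, q.2)))
    (hB : ∀ q ∈ AR, ¬ q.1.Perm [] → (∃ r, T r ∧ r.1.Perm q.1) ∧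
      (∃ r, T r ∧ r.1.Perm (((n : ℤ) + 1) :: q.1)))
    (h0 : ∃ r, T r ∧ r.1 = [])
    (hx : ∃ r, T r ∧ r.1 = [(n : ℤ) + 1])
    (hmx : ∃ r, T r ∧ r.1 = [-((n : ℤ) + 1)])
    (hD : ∀ q ∈ (wL, ([] : List ℤ)) :: AR', T (((-((n : ℤ) + 1)) :: q.1, q.2)))
    (hDm : ∀ q ∈ ([], wK) :: AR, q ∈ (wL, []) :: AR')
    (hE : ∀ q ∈ AL', ¬ q.1.Perm [] → (∃ r, T r ∧ r.1.Perm q.1) ∧
      (∃ r, T r ∧ r.1.Perm ((-((n : ℤ) + 1)) :: q.1)))
    (hEm : ∀ q ∈ (w0, []) :: AL, q ∈ ([], wK) :: AL') :
    ∀ S, SS (n + 1) S → ∃ r, T r ∧ r.1.Perm S := by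
  intro S hS
  have hE' : ∀ q ∈ (w0, []) :: AL, ¬ q.1.Perm [] → q ∈ AL' := by
    intro q hq hn
    rcases List.mem_cons.mp (hEm q hq) with rfl | h
    · exact absurd (List.Perm.refl _) hn
    · exact h
  rcases ss_cases hS with h | ⟨S', h, hp⟩ | ⟨S', h, hp⟩
  · by_cases hS0 : S = []
    · subst hS0
      obtain ⟨r, hr, hr'⟩ := h0
      exact ⟨r, hr, by rw [hr']⟩
    · obtain ⟨q, hq, hqS⟩ := hcov S h
      have hn : ¬ q.1.Perm [] := by
        intro hp
        exact hS0 (List.perm_nil.mp (hqS.symm.trans hp))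
      rcases hq with hq | hq
      · obtain ⟨⟨r, hr, hr'⟩, -⟩ := hE q (hE' q hq hn) hn
        exact ⟨r, hr, hr'.trans hqS⟩
      · obtain ⟨⟨r, hr, hr'⟩, -⟩ := hB q hq hn
        exact ⟨r, hr, hr'.trans hqS⟩
  · obtain ⟨q, hq, hqS⟩ := hcov S' h
    rcases hq with hq | hq
    · exact ⟨_, hA q hq, (hqS.cons _).trans hp.symm⟩
    · by_cases hn : q.1.Perm []
      · obtain ⟨r, hr, hr'⟩ := hx
        refine ⟨r, hr, ?_⟩
        rw [hr']
        have : S' = [] := List.perm_nil.mp (hqS.symm.trans hn)
        rw [this] at hp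
        exact hp.symm
      · obtain ⟨-, ⟨r, hr, hr'⟩⟩ := hB q hq hn
        exact ⟨r, hr, hr'.trans ((hqS.cons _).trans hp.symm)⟩
  · obtain ⟨q, hq, hqS⟩ := hcov S' h
    rcases hq with hq | hq
    · by_cases hn : q.1.Perm []
      · obtain ⟨r, hr, hr'⟩ := hmx
        refine ⟨r, hr, ?_⟩
        rw [hr']
        have : S' = [] := List.perm_nil.mp (hqS.symm.trans hn)
        rw [this] at hp
        exact hp.symm
      · obtain ⟨-, ⟨r, hr, hr'⟩⟩ := hE q (hE' q hq hn) hn
        exact ⟨r, hr, hr'.trans ((hqS.cons _).trans hp.symm)⟩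
    · exact ⟨_, hD q (hDm q (List.mem_cons_of_mem _ hq)), (hqS.cons _).trans hp.symm⟩

theorem sw_cons {n : ℕ} {w : List ℤ} (h : SW n w) : SW (n + 1) (((n : ℤ) + 1) :: w) := by
  unfold SW at h ⊢
  have h1 : ((n : ℤ) + 1).natAbs = n + 1 := by omega
  rw [List.map_cons, h1, List.range'_1_concat]
  refine List.Perm.trans (h.cons _) ?_
  rw [Nat.add_comm 1 n]
  exact (List.perm_append_singleton _ _).symm

theorem step {n : ℕ} (hn : 1 ≤ n) {w0 wK wL : List ℤ} {CL CR : List (List ℤ)}
    {AL AR : List (List ℤ × List ℤ)} {mL mR : ℕ} (h : Hyp n w0 wK wL CL AL mL CR AR mR) :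
    ∃ w0' wK' wL' CL' AL' mL' CR' AR' mR', Hyp (n + 1) w0' wK' wL' CL' AL' mL' CR' AR' mR' ∧
      ∃ u P M, SW n u ∧ w0' = ((n : ℤ) + 1) :: u ∧ wL' = u ++ [-((n : ℤ) + 1)] ∧
        CL' ++ CR' = P ++ M ∧ (∀ w ∈ P, ((n : ℤ) + 1) ∈ w) ∧ (∀ w ∈ M, (-((n : ℤ) + 1)) ∈ w) ∧
        ∃ r, ((-((n : ℤ) + 1)) :: r) ∈ M := by
  set x : ℤ := (n : ℤ) + 1 with hxdef
  obtain ⟨hswL, -⟩ := (h.left.append h.right).ww.sw (by simpa [wd] using h.sw)
  have hlL : wL.length = n := by
    have := hswL.length
    simpa [wd] using this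
  have hl0 : w0.length = n := h.sw.length
  have parL : mL % 2 = n % 2 := by
    have := h.left.par
    simp only [List.length_nil] at this
    omega
  have parR : mR % 2 = n % 2 := by
    have := h.right.par
    simp only [List.length_nil] at this
    omega
  obtain ⟨CL', AL', rL, lL, -, qL⟩ := h.left.rev
  obtain ⟨CR', AR', rR, lR, -, qR⟩ := h.right.rev
  have lenAL := h.left.len
  have lenAR := h.right.len
  have lenAL' := rL.len
  have lenAR' := rR.len
  have PA := h.left.front x
  obtain ⟨CC, AC, PC, lC, memC, headC⟩ := Wk.desc (-x) wL []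
  rw [List.append_nil] at PC headC
  have hwLne : wL ≠ [] := by
    intro h0
    rw [h0] at hlL
    simp at hlL
    omega
  have hmap : ∀ (y : ℤ) (L : List (List ℤ)), ∀ w ∈ L.map (fun w => y :: w), y ∈ w := by
    intro y L w hw
    obtain ⟨w', -, rfl⟩ := List.mem_map.mp hw
    simp
  have hins : ∀ (y : ℤ) (L : List (List ℤ × List ℤ)), ∀ w ∈ L.map (ins y), y ∈ w := by
    intro y L w hw
    obtain ⟨w', -, rfl⟩ := List.mem_map.mp hw
    simp [ins]
  have facts : ∀ P M : List (List ℤ),
      P = CL.map (fun w => x :: w) ++ AR.map (ins x) →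
      M = [wL ++ [-x]] ++ (CC ++ (CR'.map (fun w => -x :: w) ++ AL'.map (ins (-x)))) →
      (∀ w ∈ P, x ∈ w) ∧ (∀ w ∈ M, -x ∈ w) ∧ ∃ r, (-x :: r) ∈ M := by
    rintro P M rfl rfl
    refine ⟨?_, ?_, ⟨wL, ?_⟩⟩
    · intro w hw
      rcases List.mem_append.mp hw with hw | hw
      · exact hmap x _ w hw
      · exact hins x _ w hw
    · intro w hw
      rcases List.mem_append.mp hw with hw | hw
      · simp only [List.mem_cons, List.not_mem_nil, or_false] at hw
        rw [hw]; simp
      · rcases List.mem_append.mp hw with hw | hw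
        · exact memC w hw
        · rcases List.mem_append.mp hw with hw | hw
          · exact hmap (-x) _ w hw
          · exact hins (-x) _ w hw
    · exact List.mem_append_right _ (List.mem_append_left _ (headC hwLne))
  have PD := rR.front (-x)
  have F1 : Wk (wL, [x]) (wL, [-x]) [wL ++ [-x]] [(wL, [-x])] 0 := by
    have := Wk.one_cs (CS.f wL [] x)
    simpa [wd] using this
  have F2 : Wk (wL, [-x]) (wL ++ [-x], []) [] [(wL ++ [-x], [])] 1 := Wk.one_ms (MS.up wL (-x) [])
  have MID := F1.append (F2.append (PC.append PD))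
  have cnt1 := h.cnt1
  have cnt2 := h.cnt2
  have hpow : 3 ^ (n + 1) = 3 * 3 ^ n := by ring
  rcases Nat.mod_two_eq_zero_or_one n with hpar | hpar
  · -- n even
    obtain ⟨B', PB, covB⟩ := h.right.side x false
    obtain ⟨E', PE, covE⟩ := rL.side (-x) true
    rw [bodd_of_even (by omega)] at PB PE
    have G0 : Wk ([x], wK) ([], x :: wK) [] [([], x :: wK)] 1 := Wk.one_ms (MS.down [] x wK)
    have LEFT := PA.append G0
    have PB' : Wk ([], x :: wK) (wL, [x]) (AR.map (ins x)) B' (2 * mR) := PB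
    have PE' : Wk ([-x], wK) (w0 ++ [-x], []) (AL'.map (ins (-x))) E' (2 * mL) := PE
    have RIGHT := PB'.append (MID.append PE')
    refine ⟨x :: w0, x :: wK, w0 ++ [-x], _, _, _, _, _, _, ⟨?_, LEFT, RIGHT, ?_, ?_, ?_⟩,
      w0, _, _, h.sw, rfl, rfl, ?_, (facts _ _ rfl rfl)⟩
    · exact sw_cons h.sw
    · simp only [List.length_append, List.length_map, List.length_cons, List.length_nil]
      omega
    · omega
    · intro S hS
      have := cov_new (n := n) (wK := wK) (wL := wL) (AL' := AL') (AR' := AR')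
        (T := fun r => r ∈ (x :: w0, ([] : List ℤ)) ::
            (AL.map (fun q => (x :: q.1, q.2)) ++ [([], x :: wK)]) ∨
          r ∈ B' ++ ([(wL, [-x])] ++ ([(wL ++ [-x], [])] ++ (AC ++ AR'.map
            (fun q => (-x :: q.1, q.2)))) ++ E')) h.cov
        ?_ ?_ ?_ ?_ ?_ ?_ qR ?_ qL S hS
      · exact this
      · intro q hq
        left
        rcases List.mem_cons.mp hq with rfl | hq
        · exact List.mem_cons_self
        · refine List.mem_cons_of_mem _ (List.mem_append_left _ ?_)
          exact List.mem_map_of_mem (f := fun q : List ℤ × List ℤ => (x :: q.1, q.2)) hq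
      · intro q hq hnq
        obtain ⟨⟨r, hr, hr'⟩, ⟨r2, hr2, hr2'⟩⟩ := covB q hq hnq
        exact ⟨⟨r, Or.inr (List.mem_append_left _ hr), hr'⟩,
          ⟨r2, Or.inr (List.mem_append_left _ hr2), hr2'⟩⟩
      · exact ⟨([], x :: wK), Or.inl (by simp), rfl⟩
      · refine ⟨([x], wK), Or.inl ?_, rfl⟩
        have h1 := PA.end_mem
        rcases List.mem_cons.mp h1 with h1 | h1
        · rw [h1]; exact List.mem_cons_self
        · exact List.mem_cons_of_mem _ (List.mem_append_left _ h1)
      · refine ⟨([-x], wK), Or.inr ?_, rfl⟩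
        have h1 := MID.end_mem
        rcases List.mem_cons.mp h1 with h1 | h1
        · exfalso
          have := congrArg (fun p => p.2) h1
          have h2 := congrArg (fun p => p.1) h1
          simp only at this h2
          rw [← h2] at hlL
          have h3 : wL = [-x] := h2.symm
          have h4 : (x : ℤ) = -x := by
            have := hswL
            simp only [wd, List.append_nil] at this
            rw [h3] at this
            have h5 := this.length
            simp at h5
            unfold SW at this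
            rw [← h5] at this
            simp at this
            omega
          omega
        · exact List.mem_append_right _ (List.mem_append_left _ h1)
      · intro q hq
        right
        refine List.mem_append_right _ (List.mem_append_left _ (List.mem_append_right _ ?_))
        rcases List.mem_cons.mp hq with rfl | hq
        · have h1 := PC.end_mem
          rcases List.mem_cons.mp h1 with h1 | h1
          · rw [h1]; exact List.mem_append_left _ (by simp)
          · exact List.mem_append_right _ (List.mem_append_left _ h1)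
        · refine List.mem_append_right _ (List.mem_append_right _ ?_)
          exact List.mem_map_of_mem (f := fun q : List ℤ × List ℤ => (-x :: q.1, q.2)) hq
      · intro q hq hnq
        obtain ⟨⟨r, hr, hr'⟩, ⟨r2, hr2, hr2'⟩⟩ := covE q hq hnq
        exact ⟨⟨r, Or.inr (List.mem_append_right _ (List.mem_append_right _ hr)), hr'⟩,
          ⟨r2, Or.inr (List.mem_append_right _ (List.mem_append_right _ hr2)), hr2'⟩⟩
    · simp [List.append_assoc]
  · -- n odd
    obtain ⟨B', PB, covB⟩ := h.right.side x true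
    obtain ⟨E', PE, covE⟩ := rL.side (-x) false
    rw [bodd_of_odd (by omega)] at PB PE
    have G0 : Wk ([-x], wK) ([], -x :: wK) [] [([], -x :: wK)] 1 := Wk.one_ms (MS.down [] (-x) wK)
    have PB' : Wk ([x], wK) (wL, [x]) (AR.map (ins x)) B' (2 * mR) := PB
    have PE' : Wk ([], -x :: wK) (w0 ++ [-x], []) (AL'.map (ins (-x))) E' (2 * mL) := PE
    have LEFT := PA.append (PB'.append (MID.append G0))
    refine ⟨x :: w0, -x :: wK, w0 ++ [-x], _, _, _, _, _, _, ⟨?_, LEFT, PE', ?_, ?_, ?_⟩,
      w0, _, _, h.sw, rfl, rfl, ?_, (facts _ _ rfl rfl)⟩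
    · exact sw_cons h.sw
    · simp only [List.length_append, List.length_map, List.length_cons, List.length_nil]
      omega
    · omega
    · intro S hS
      have := cov_new (n := n) (wK := wK) (wL := wL) (AL' := AL') (AR' := AR')
        (T := fun r => r ∈ (x :: w0, ([] : List ℤ)) ::
            (AL.map (fun q => (x :: q.1, q.2)) ++ (B' ++ ([(wL, [-x])] ++ ([(wL ++ [-x], [])] ++
              (AC ++ AR'.map (fun q => (-x :: q.1, q.2)))) ++ [([], -x :: wK)]))) ∨
          r ∈ E') h.cov
        ?_ ?_ ?_ ?_ ?_ ?_ qR ?_ qL S hS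
      · exact this
      · intro q hq
        left
        rcases List.mem_cons.mp hq with rfl | hq
        · exact List.mem_cons_self
        · refine List.mem_cons_of_mem _ (List.mem_append_left _ ?_)
          exact List.mem_map_of_mem (f := fun q : List ℤ × List ℤ => (x :: q.1, q.2)) hq
      · intro q hq hnq
        obtain ⟨⟨r, hr, hr'⟩, ⟨r2, hr2, hr2'⟩⟩ := covB q hq hnq
        exact ⟨⟨r, Or.inl (List.mem_cons_of_mem _ (List.mem_append_right _
            (List.mem_append_left _ hr))), hr'⟩,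
          ⟨r2, Or.inl (List.mem_cons_of_mem _ (List.mem_append_right _
            (List.mem_append_left _ hr2))), hr2'⟩⟩
      · exact ⟨([], -x :: wK), Or.inl (by simp), rfl⟩
      · refine ⟨([x], wK), Or.inl ?_, rfl⟩
        have h1 := PA.end_mem
        rcases List.mem_cons.mp h1 with h1 | h1
        · rw [h1]; exact List.mem_cons_self
        · exact List.mem_cons_of_mem _ (List.mem_append_left _ h1)
      · refine ⟨([-x], wK), Or.inl ?_, rfl⟩
        have h1 := PD.end_mem
        refine List.mem_cons_of_mem _ (List.mem_append_right _ (List.mem_append_right _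
          (List.mem_append_left _ (List.mem_append_right _ ?_))))
        rcases List.mem_cons.mp h1 with h1 | h1
        · rw [h1]
          have h2 := PC.end_mem
          rcases List.mem_cons.mp h2 with h2 | h2
          · rw [h2]; exact List.mem_append_left _ (by simp)
          · exact List.mem_append_right _ (List.mem_append_left _ h2)
        · exact List.mem_append_right _ (List.mem_append_right _ h1)
      · intro q hq
        left
        refine List.mem_cons_of_mem _ (List.mem_append_right _ (List.mem_append_right _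
          (List.mem_append_left _ (List.mem_append_right _ ?_))))
        rcases List.mem_cons.mp hq with rfl | hq
        · have h1 := PC.end_mem
          rcases List.mem_cons.mp h1 with h1 | h1
          · rw [h1]; exact List.mem_append_left _ (by simp)
          · exact List.mem_append_right _ (List.mem_append_left _ h1)
        · refine List.mem_append_right _ (List.mem_append_right _ ?_)
          exact List.mem_map_of_mem (f := fun q : List ℤ × List ℤ => (-x :: q.1, q.2)) hq
      · intro q hq hnq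
        obtain ⟨⟨r, hr, hr'⟩, ⟨r2, hr2, hr2'⟩⟩ := covE q hq hnq
        exact ⟨⟨r, Or.inr hr, hr'⟩, ⟨r2, Or.inr hr2, hr2'⟩⟩
    · simp [List.append_assoc]

theorem hyp_all : ∀ n : ℕ, 1 ≤ n → ∃ w0 wK wL CL AL mL CR AR mR,
    Hyp n w0 wK wL CL AL mL CR AR mR := by
  intro n hn
  induction n, hn using Nat.le_induction with
  | base => exact ⟨_, _, _, _, _, _, _, _, _, hyp_one⟩
  | succ n hn ih =>
    obtain ⟨w0, wK, wL, CL, AL, mL, CR, AR, mR, h⟩ := ih
    obtain ⟨w0', wK', wL', CL', AL', mL', CR', AR', mR', h', -⟩ := step hn h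
    exact ⟨w0', wK', wL', CL', AL', mL', CR', AR', mR', h'⟩

end Pool.Agent.R322.FH
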