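import Pool.Agent.R322.FH.Step
import Pool.Agent.R322.FH.Cyc

/-!
# Sign vectors of initial segments of words
-/

set_option autoImplicit false

namespace Pool.Agent.R322.FH

/-- the sign vector of a list of letters -/
def svl (n : ℕ) (l : List ℤ) : Fin n → ℤ := fun i =>
  if (((i : ℕ) : ℤ) + 1) ∈ l then 1
  else if (-(((i : ℕ) : ℤ) + 1)) ∈ l then -1 else 0

theorem sv_eq (n : ℕ) (w : List ℤ) (k : ℕ) : sv n w k = svl n (w.take k) := rfl

theorem svl_perm {n : ℕ} {l l' : List ℤ} (h : l.Perm l') : svl n l = svl n l' := by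
  funext i
  simp only [svl, h.mem_iff]

theorem svl_ne {n : ℕ} {l : List ℤ} (i : Fin n) :
    svl n l i ≠ 0 ↔ ∃ a ∈ l, a.natAbs = (i : ℕ) + 1 := by
  unfold svl
  split_ifs with h1 h2
  · simp only [ne_eq, one_ne_zero, not_false_eq_true, true_iff]
    exact ⟨_, h1, by omega⟩
  · simp only [ne_eq, neg_eq_zero, one_ne_zero, not_false_eq_true, true_iff]
    exact ⟨_, h2, by omega⟩
  · simp only [ne_eq, not_true_eq_false, false_iff]
    rintro ⟨a, ha, ha'⟩
    have : a = ((i : ℕ) : ℤ) + 1 ∨ a = -(((i : ℕ) : ℤ) + 1) := by omega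
    rcases this with rfl | rfl
    · exact h1 ha
    · exact h2 ha

theorem svl_supp {n : ℕ} {l : List ℤ} (h : SS n l) :
    (Finset.univ.filter (fun i : Fin n => svl n l i ≠ 0)).card = l.length := by
  classical
  obtain ⟨h1, h2⟩ := h
  have e1 : (Finset.univ.filter (fun i : Fin n => svl n l i ≠ 0)).image (fun i : Fin n => (i : ℕ) + 1) =
      (l.map Int.natAbs).toFinset := by
    ext k
    simp only [Finset.mem_image, Finset.mem_filter, Finset.mem_univ, true_and, List.mem_toFinset,
      List.mem_map]
    constructor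
    · rintro ⟨i, hi, rfl⟩
      exact (svl_ne i).mp hi
    · rintro ⟨a, ha, rfl⟩
      have h3 := h2 a ha
      refine ⟨⟨a.natAbs - 1, by omega⟩, (svl_ne _).mpr ⟨a, ha, ?_⟩, ?_⟩
      · show a.natAbs = a.natAbs - 1 + 1
        omega
      · show a.natAbs - 1 + 1 = a.natAbs
        omega
  have e2 : (Finset.univ.filter (fun i : Fin n => svl n l i ≠ 0)).card =
      ((Finset.univ.filter (fun i : Fin n => svl n l i ≠ 0)).image (fun i : Fin n => (i : ℕ) + 1)).card := by
    rw [Finset.card_image_of_injective]
    intro i j hij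
    ext
    simpa using hij
  rw [e2, e1, List.toFinset_card_of_nodup h1, List.length_map]

theorem SW.ss {n : ℕ} {w : List ℤ} (h : SW n w) : SS n w := by
  unfold SW at h
  refine ⟨h.nodup_iff.mpr (List.nodup_range'), fun a ha => ?_⟩
  have := h.mem_iff.mp (List.mem_map_of_mem (f := Int.natAbs) ha)
  rw [List.mem_range'_1] at this
  omega

theorem SS.take {n : ℕ} {w : List ℤ} (h : SS n w) (q : ℕ) : SS n (w.take q) := by
  refine ⟨?_, fun a ha => h.2 a (List.mem_of_mem_take ha)⟩
  rw [List.map_take]
  exact h.1.sublist (List.take_sublist _ _)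

theorem sv_supp {n : ℕ} {w : List ℤ} (h : SW n w) {q : ℕ} (hq : q ≤ n) :
    (Finset.univ.filter (fun i : Fin n => sv n w q i ≠ 0)).card = q := by
  rw [sv_eq, svl_supp (h.ss.take q), List.length_take, h.length]
  omega

theorem sv_size {n : ℕ} {w w' : List ℤ} (h : SW n w) (h' : SW n w') {q q' : ℕ} (hq : q ≤ n)
    (hq' : q' ≤ n) (he : sv n w q = sv n w' q') : q = q' := by
  have h1 := sv_supp h hq
  have h2 := sv_supp h' hq'
  rw [he] at h1
  omega

theorem nodup_of_map {l : List ℤ} (h : (l.map Int.natAbs).Nodup) : l.Nodup := List.Nodup.of_map _ h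

theorem adj_level {n : ℕ} {u v : List ℤ} (hu : SW n u) (h : Adj u v) :
    ∃ q0, 1 ≤ q0 ∧ q0 ≤ n ∧ (∀ q, q ≤ n → q ≠ q0 → sv n u q = sv n v q) ∧
      sv n u q0 ≠ sv n v q0 := by
  have hlen := hu.length
  have hss := hu.ss
  rcases h with ⟨α, a, b, β, rfl, rfl⟩ | ⟨α, a, rfl, rfl⟩
  · simp only [List.length_append, List.length_cons] at hlen
    refine ⟨α.length + 1, by omega, by omega, ?_, ?_⟩
    · intro q hq hne
      rw [sv_eq, sv_eq]
      by_cases hle : q ≤ α.length
      · rw [List.take_append_of_le_length hle, List.take_append_of_le_length hle]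
      · obtain ⟨r, rfl⟩ : ∃ r, q = α.length + (r + 2) := ⟨q - α.length - 2, by omega⟩
        apply svl_perm
        rw [List.take_append, List.take_append]
        simp only [Nat.add_sub_cancel_left, List.take_succ_cons]
        exact (List.Perm.swap b a _).append_left _
    · rw [sv_eq, sv_eq]
      intro he
      have ha := hss.2 a (by simp)
      have e1 : (α ++ a :: b :: β).take (α.length + 1) = α ++ [a] := by
        rw [List.take_append]
        simp
      have e2 : (α ++ b :: a :: β).take (α.length + 1) = α ++ [b] := by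
        rw [List.take_append]
        simp
      rw [e1, e2] at he
      have h1 : svl n (α ++ [a]) ⟨a.natAbs - 1, by omega⟩ ≠ 0 := by
        rw [svl_ne]
        refine ⟨a, by simp, ?_⟩
        show a.natAbs = a.natAbs - 1 + 1
        omega
      rw [he, svl_ne] at h1
      obtain ⟨c, hc, hc'⟩ := h1
      have hc'' : c.natAbs = a.natAbs := by
        have : c.natAbs = a.natAbs - 1 + 1 := hc'
        omega
      have hnd := hss.1
      simp only [List.map_append, List.map_cons, List.nodup_append, List.nodup_cons,
        List.mem_map, List.mem_cons] at hnd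
      rcases List.mem_append.mp hc with hc | hc
      · exact hnd.2.2 c.natAbs ⟨c, hc, rfl⟩ a.natAbs (Or.inl rfl) hc''
      · simp only [List.mem_cons, List.not_mem_nil, or_false] at hc
        rw [hc] at hc''
        exact hnd.2.1.1 (Or.inl hc''.symm)
  · simp only [List.length_append, List.length_cons, List.length_nil] at hlen
    refine ⟨α.length + 1, by omega, by omega, ?_, ?_⟩
    · intro q hq hne
      rw [sv_eq, sv_eq]
      have hle : q ≤ α.length := by omega
      rw [List.take_append_of_le_length hle, List.take_append_of_le_length hle]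
    · rw [sv_eq, sv_eq]
      intro he
      have ha := hss.2 a (by simp)
      rw [List.take_of_length_le (by simp), List.take_of_length_le (by simp)] at he
      have h1 := congrFun he ⟨a.natAbs - 1, by omega⟩
      have hnd := hss.1
      simp only [List.map_append, List.map_cons, List.map_nil, List.nodup_append,
        List.mem_map, List.mem_cons, List.not_mem_nil, or_false] at hnd
      have hna : a ∉ α := fun h => hnd.2.2 a.natAbs ⟨a, h, rfl⟩ a.natAbs rfl rfl
      have hnma : -a ∉ α := fun h => hnd.2.2 (-a).natAbs ⟨-a, h, rfl⟩ a.natAbs rfl (by simp)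
      have hcast : (((⟨a.natAbs - 1, by omega⟩ : Fin n) : ℕ) : ℤ) + 1 = (a.natAbs : ℤ) := by
        show ((a.natAbs - 1 : ℕ) : ℤ) + 1 = _
        omega
      simp only [svl, hcast] at h1
      rcases lt_or_gt_of_ne (show a ≠ 0 by omega) with hneg | hpos
      · have e1 : (a.natAbs : ℤ) = -a := by omega
        rw [e1, neg_neg] at h1
        have c1 : -a ∉ α ++ [a] := by
          simp only [List.mem_append, List.mem_cons, List.not_mem_nil, or_false, not_or]
          exact ⟨hnma, by omega⟩
        have c2 : -a ∈ α ++ [-a] := by simp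
        have c3 : a ∈ α ++ [a] := by simp
        rw [if_neg c1, if_pos c3, if_pos c2] at h1
        norm_num at h1
      · have e1 : (a.natAbs : ℤ) = a := by omega
        rw [e1] at h1
        have c1 : a ∈ α ++ [a] := by simp
        have c2 : a ∉ α ++ [-a] := by
          simp only [List.mem_append, List.mem_cons, List.not_mem_nil, or_false, not_or]
          exact ⟨hna, by omega⟩
        have c3 : -a ∈ α ++ [-a] := by simp
        rw [if_pos c1, if_neg c2, if_pos c3] at h1
        norm_num at h1

/-- the sign vector `s` is active at the word `w` -/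
def act' (n : ℕ) (w : List ℤ) (s : Fin n → ℤ) : Prop := ∃ q, 1 ≤ q ∧ q ≤ n ∧ s = sv n w q

theorem act_uniq {n : ℕ} {u v : List ℤ} (hu : SW n u) (h : Adj u v) (s t : Fin n → ℤ)
    (h1 : ¬ act' n u s) (h2 : act' n v s) (h3 : ¬ act' n u t) (h4 : act' n v t) : s = t := by
  obtain ⟨q0, -, -, hq, -⟩ := adj_level hu h
  obtain ⟨q, hq1, hq2, rfl⟩ := h2
  obtain ⟨q', hq1', hq2', rfl⟩ := h4
  have e1 : q = q0 := by
    by_contra hne
    exact h1 ⟨q, hq1, hq2, (hq q hq2 hne).symm⟩
  have e2 : q' = q0 := by
    by_contra hne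
    exact h3 ⟨q', hq1', hq2', (hq q' hq2' hne).symm⟩
  rw [e1, e2]

/-- the list of letters of a sign vector -/
noncomputable def letters {n : ℕ} (s : Fin n → ℤ) : List ℤ :=
  ((Finset.univ.filter (fun i : Fin n => s i ≠ 0)).toList).map (fun i => s i * (((i : ℕ) : ℤ) + 1))

theorem letters_ss {n : ℕ} (s : Fin n → ℤ) (hs : ∀ i, s i = 0 ∨ s i = 1 ∨ s i = -1) :
    SS n (letters s) := by
  have habs : ∀ i : Fin n, s i ≠ 0 → (s i * (((i : ℕ) : ℤ) + 1)).natAbs = (i : ℕ) + 1 := by
    intro i hi
    rcases hs i with h | h | h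
    · exact absurd h hi
    · rw [h]; omega
    · rw [h]; omega
  constructor
  · unfold letters
    rw [List.map_map]
    apply List.Nodup.map_on _ (Finset.nodup_toList _)
    intro i hi j hj hij
    rw [Finset.mem_toList, Finset.mem_filter] at hi hj
    simp only [Function.comp] at hij
    rw [habs i hi.2, habs j hj.2] at hij
    ext
    omega
  · intro a ha
    unfold letters at ha
    obtain ⟨i, hi, rfl⟩ := List.mem_map.mp ha
    rw [Finset.mem_toList, Finset.mem_filter] at hi
    rw [habs i hi.2]
    have := i.2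
    omega

theorem letters_svl {n : ℕ} (s : Fin n → ℤ) (hs : ∀ i, s i = 0 ∨ s i = 1 ∨ s i = -1) :
    svl n (letters s) = s := by
  funext i
  have hmem : ∀ a : ℤ, a ∈ letters s ↔ ∃ j : Fin n, s j ≠ 0 ∧ s j * (((j : ℕ) : ℤ) + 1) = a := by
    intro a
    unfold letters
    rw [List.mem_map]
    simp only [Finset.mem_toList, Finset.mem_filter, Finset.mem_univ, true_and]
  have hi := i.2
  unfold svl
  split_ifs with h1 h2
  · rw [hmem] at h1
    obtain ⟨j, hj, hj'⟩ := h1
    have hj2 := j.2
    rcases hs j with h | h | h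
    · exact absurd h hj
    · rw [h] at hj'
      have : j = i := by ext; omega
      rw [← this, h]
    · rw [h] at hj'
      omega
  · rw [hmem] at h2
    obtain ⟨j, hj, hj'⟩ := h2
    have hj2 := j.2
    rcases hs j with h | h | h
    · exact absurd h hj
    · rw [h] at hj'
      omega
    · rw [h] at hj'
      have : j = i := by ext; omega
      rw [← this, h]
  · rcases hs i with h | h | h
    · exact h.symm
    · exfalso
      apply h1
      rw [hmem]
      exact ⟨i, by rw [h]; norm_num, by rw [h]; ring⟩
    · exfalso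
      apply h2
      rw [hmem]
      exact ⟨i, by rw [h]; norm_num, by rw [h]; ring⟩

/-- coverage in terms of sign vectors -/
theorem act_of_cov {n : ℕ} {w : List ℤ} (hw : SW n w) (s : Fin n → ℤ)
    (hs : ∀ i, s i = 0 ∨ s i = 1 ∨ s i = -1) (hs0 : s ≠ 0) {k : ℕ}
    (h : (w.take k).Perm (letters s)) : act' n w s := by
  have hlen := h.length_eq
  rw [List.length_take, hw.length] at hlen
  refine ⟨min k n, ?_, by omega, ?_⟩
  · have : letters s ≠ [] := by
      intro h0
      apply hs0
      rw [← letters_svl s hs, h0]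
      funext i
      simp [svl]
    have := List.length_pos_iff.mpr this
    omega
  · rw [sv_eq]
    have e : w.take (min k n) = w.take k := by
      rcases le_total k n with hkn | hkn
      · rw [min_eq_left hkn]
      · rw [min_eq_right hkn, List.take_of_length_le (by rw [hw.length]),
          List.take_of_length_le (by rw [hw.length]; exact hkn)]
    rw [e, svl_perm h, letters_svl s hs]

end Pool.Agent.R322.FH
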