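import Pool.Agent.R322.FH.Defs

/-!
# Walks of words with a marker
-/

set_option autoImplicit false

namespace Pool.Agent.R322.FH

/-- swap of two neighbouring letters -/
def Sw (u v : List ℤ) : Prop :=
  ∃ (α : List ℤ) (a b : ℤ) (β : List ℤ), u = α ++ a :: b :: β ∧ v = α ++ b :: a :: β

theorem Sw.symm {u v : List ℤ} (h : Sw u v) : Sw v u := by
  obtain ⟨α, a, b, β, rfl, rfl⟩ := h
  exact ⟨α, b, a, β, rfl, rfl⟩

theorem Sw.cons {u v : List ℤ} (x : ℤ) (h : Sw u v) : Sw (x :: u) (x :: v) := by
  obtain ⟨α, a, b, β, rfl, rfl⟩ := h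
  exact ⟨x :: α, a, b, β, by simp, by simp⟩

theorem Sw.app {u v : List ℤ} (r : List ℤ) (h : Sw u v) : Sw (u ++ r) (v ++ r) := by
  obtain ⟨α, a, b, β, rfl, rfl⟩ := h
  exact ⟨α, a, b, β ++ r, by simp, by simp⟩

theorem Sw.pre {u v : List ℤ} (r : List ℤ) (h : Sw u v) : Sw (r ++ u) (r ++ v) := by
  obtain ⟨α, a, b, β, rfl, rfl⟩ := h
  exact ⟨r ++ α, a, b, β, by simp, by simp⟩

theorem Sw.perm {u v : List ℤ} (h : Sw u v) : u.Perm v := by
  obtain ⟨α, a, b, β, rfl, rfl⟩ := h
  exact (List.Perm.swap b a β).append_left α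

theorem Sw.adj {u v : List ℤ} (h : Sw u v) : Adj u v := Or.inl h

/-- the word of a state (a word with a marker) -/
def wd (s : List ℤ × List ℤ) : List ℤ := s.1 ++ s.2

/-- chain steps: the word changes, the marker does not block -/
inductive CS : List ℤ × List ℤ → List ℤ × List ℤ → Prop
  | l {α α' : List ℤ} (β : List ℤ) : Sw α α' → CS (α, β) (α', β)
  | r (α : List ℤ) {β β' : List ℤ} : Sw β β' → CS (α, β) (α, β')
  | f (α β : List ℤ) (a : ℤ) : CS (α, β ++ [a]) (α, β ++ [-a])

/-- marker steps -/
inductive MS : List ℤ × List ℤ → List ℤ × List ℤ → Prop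
  | up (α : List ℤ) (b : ℤ) (β : List ℤ) : MS (α, b :: β) (α ++ [b], β)
  | down (α : List ℤ) (b : ℤ) (β : List ℤ) : MS (α ++ [b], β) (α, b :: β)

theorem CS.symm {s t : List ℤ × List ℤ} (h : CS s t) : CS t s := by
  cases h with
  | l β h => exact CS.l β h.symm
  | r α h => exact CS.r α h.symm
  | f α β a =>
    have := CS.f α β (-a)
    rwa [neg_neg] at this

theorem MS.symm {s t : List ℤ × List ℤ} (h : MS s t) : MS t s := by
  cases h with
  | up α b β => exact MS.down α b β
  | down α b β => exact MS.up α b β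

theorem CS.adj {s t : List ℤ × List ℤ} (h : CS s t) : Adj (wd s) (wd t) := by
  cases h with
  | l β h => exact (h.app β).adj
  | r α h => exact (h.pre α).adj
  | f α β a => exact Or.inr ⟨α ++ β, a, by simp [wd], by simp [wd]⟩

theorem MS.wd_eq {s t : List ℤ × List ℤ} (h : MS s t) : wd s = wd t := by
  cases h with
  | up α b β => simp [wd]
  | down α b β => simp [wd]

theorem CS.perm {s t : List ℤ × List ℤ} (h : CS s t) : s.1.Perm t.1 := by
  cases h with
  | l β h => exact h.perm
  | r α h => exact List.Perm.refl _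
  | f α β a => exact List.Perm.refl _

/-- walks of states: `C` the words after the chain steps, `A` the states after all steps, `m` the
number of marker steps -/
inductive Wk : List ℤ × List ℤ → List ℤ × List ℤ → List (List ℤ) → List (List ℤ × List ℤ) →
    ℕ → Prop
  | nil (s : List ℤ × List ℤ) : Wk s s [] [] 0
  | cs {s s' t : List ℤ × List ℤ} {C : List (List ℤ)} {A : List (List ℤ × List ℤ)} {m : ℕ} :
      CS s s' → Wk s' t C A m → Wk s t (wd s' :: C) (s' :: A) m
  | ms {s s' t : List ℤ × List ℤ} {C : List (List ℤ)} {A : List (List ℤ × List ℤ)} {m : ℕ} :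
      MS s s' → Wk s' t C A m → Wk s t C (s' :: A) (m + 1)

theorem Wk.append {s t r : List ℤ × List ℤ} {C C' : List (List ℤ)}
    {A A' : List (List ℤ × List ℤ)} {m m' : ℕ} (h : Wk s t C A m) (h' : Wk t r C' A' m') :
    Wk s r (C ++ C') (A ++ A') (m + m') := by
  induction h with
  | nil s => simpa using h'
  | cs hc _ ih => exact Wk.cs hc (ih h')
  | @ms s s' t C A m hc _ ih =>
    have := Wk.ms hc (ih h')
    have e : m + 1 + m' = m + m' + 1 := by ring
    rw [e]
    exact this

theorem Wk.one_cs {s t : List ℤ × List ℤ} (h : CS s t) : Wk s t [wd t] [t] 0 :=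
  Wk.cs h (Wk.nil t)

theorem Wk.one_ms {s t : List ℤ × List ℤ} (h : MS s t) : Wk s t [] [t] 1 :=
  Wk.ms h (Wk.nil t)

theorem Wk.rev {s t : List ℤ × List ℤ} {C : List (List ℤ)}
    {A : List (List ℤ × List ℤ)} {m : ℕ} (h : Wk s t C A m) :
    ∃ C' A', Wk t s C' A' m ∧ C'.length = C.length ∧ (∀ w ∈ wd s :: C, w ∈ wd t :: C') ∧
      (∀ q ∈ s :: A, q ∈ t :: A') := by
  induction h with
  | nil s => exact ⟨[], [], Wk.nil s, rfl, fun w h => h, fun w h => h⟩
  | @cs s s' t C A m hc _ ih =>
    obtain ⟨C', A', h1, h2, h3, h4⟩ := ih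
    refine ⟨C' ++ [wd s], A' ++ [s], by simpa using h1.append (Wk.one_cs hc.symm), by simp [h2],
      ?_, ?_⟩
    · intro w hw
      rcases List.mem_cons.mp hw with rfl | hw
      · simp
      · have := h3 w hw
        simp only [List.mem_cons, List.mem_append, List.not_mem_nil, or_false] at this ⊢
        tauto
    · intro w hw
      rcases List.mem_cons.mp hw with rfl | hw
      · simp
      · have := h4 w hw
        simp only [List.mem_cons, List.mem_append, List.not_mem_nil, or_false] at this ⊢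
        tauto
  | @ms s s' t C A m hc _ ih =>
    obtain ⟨C', A', h1, h2, h3, h4⟩ := ih
    refine ⟨C', A' ++ [s], by simpa using h1.append (Wk.one_ms hc.symm), by simp [h2],
      ?_, ?_⟩
    · rw [hc.wd_eq]
      exact h3
    · intro w hw
      rcases List.mem_cons.mp hw with rfl | hw
      · simp
      · have := h4 w hw
        simp only [List.mem_cons, List.mem_append, List.not_mem_nil, or_false] at this ⊢
        tauto

theorem Wk.len {s t : List ℤ × List ℤ} {C : List (List ℤ)}
    {A : List (List ℤ × List ℤ)} {m : ℕ} (h : Wk s t C A m) : A.length = C.length + m := by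
  induction h with
  | nil s => rfl
  | cs _ _ ih => simp [ih]; ring
  | ms _ _ ih => simp [ih]; ring

theorem Wk.par {s t : List ℤ × List ℤ} {C : List (List ℤ)}
    {A : List (List ℤ × List ℤ)} {m : ℕ} (h : Wk s t C A m) :
    (s.1.length + t.1.length + m) % 2 = 0 := by
  induction h with
  | nil s => omega
  | cs hc _ ih =>
    have := hc.perm.length_eq
    omega
  | ms hc _ ih =>
    cases hc with
    | up α b β => simp at ih ⊢; omega
    | down α b β => simp at ih ⊢; omega

theorem Wk.wd_mem {s t : List ℤ × List ℤ} {C : List (List ℤ)}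
    {A : List (List ℤ × List ℤ)} {m : ℕ} (h : Wk s t C A m) :
    ∀ q ∈ s :: A, wd q ∈ wd s :: C := by
  induction h with
  | nil s =>
    intro q hq
    simp only [List.mem_cons, List.not_mem_nil, or_false] at hq ⊢
    rw [hq]
  | cs hc _ ih =>
    intro q hq
    rcases List.mem_cons.mp hq with rfl | hq
    · simp
    · exact List.mem_cons_of_mem _ (ih q hq)
  | ms hc _ ih =>
    intro q hq
    rcases List.mem_cons.mp hq with rfl | hq
    · simp
    · have := ih q hq
      rwa [← hc.wd_eq] at this

theorem Wk.end_mem {s t : List ℤ × List ℤ} {C : List (List ℤ)}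
    {A : List (List ℤ × List ℤ)} {m : ℕ} (h : Wk s t C A m) : t ∈ s :: A := by
  induction h with
  | nil s => simp
  | cs hc _ ih => exact List.mem_cons_of_mem _ ih
  | ms hc _ ih => exact List.mem_cons_of_mem _ ih

/-- words walks -/
inductive WW : List ℤ → List ℤ → List (List ℤ) → Prop
  | nil (u : List ℤ) : WW u u []
  | cons {u v t : List ℤ} {C : List (List ℤ)} : Adj u v → WW v t C → WW u t (v :: C)

theorem WW.append {u v t : List ℤ} {C C' : List (List ℤ)} (h : WW u v C) (h' : WW v t C') :
    WW u t (C ++ C') := by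
  induction h with
  | nil s => simpa using h'
  | cons hc _ ih => exact WW.cons hc (ih h')

theorem Wk.ww {s t : List ℤ × List ℤ} {C : List (List ℤ)}
    {A : List (List ℤ × List ℤ)} {m : ℕ} (h : Wk s t C A m) : WW (wd s) (wd t) C := by
  induction h with
  | nil s => exact WW.nil _
  | cs hc _ ih => exact WW.cons hc.adj ih
  | ms hc _ ih => rwa [hc.wd_eq]

/-! ## the front map -/

theorem Wk.front {s t : List ℤ × List ℤ} {C : List (List ℤ)}
    {A : List (List ℤ × List ℤ)} {m : ℕ} (x : ℤ) (h : Wk s t C A m) :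
    Wk (x :: s.1, s.2) (x :: t.1, t.2) (C.map (fun w => x :: w))
      (A.map (fun q => (x :: q.1, q.2))) m := by
  induction h with
  | nil s => exact Wk.nil _
  | @cs s s' t C A m hc _ ih =>
    have h1 : CS (x :: s.1, s.2) (x :: s'.1, s'.2) := by
      cases hc with
      | l β h => exact CS.l β (h.cons x)
      | r α h => exact CS.r _ h
      | f α β a => exact CS.f _ _ _
    have := Wk.cs h1 ih
    simpa [wd] using this
  | @ms s s' t C A m hc _ ih =>
    have h1 : MS (x :: s.1, s.2) (x :: s'.1, s'.2) := by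
      cases hc with
      | up α b β => exact MS.up (x :: α) b β
      | down α b β => exact MS.down (x :: α) b β
    exact Wk.ms h1 ih

/-! ## the side map -/

/-- insert the letter `x` at the marker, after (`false`) or before (`true`) the marker -/
def sd (x : ℤ) : Bool → List ℤ × List ℤ → List ℤ × List ℤ
  | false, s => (s.1, x :: s.2)
  | true, s => (s.1 ++ [x], s.2)

/-- the word with `x` inserted at the marker -/
def ins (x : ℤ) (q : List ℤ × List ℤ) : List ℤ := q.1 ++ x :: q.2

theorem wd_sd (x : ℤ) (a : Bool) (s : List ℤ × List ℤ) : wd (sd x a s) = ins x s := by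
  cases a <;> simp [wd, sd, ins]

theorem CS.sd {s s' : List ℤ × List ℤ} (x : ℤ) (a : Bool) (h : CS s s') :
    CS (sd x a s) (sd x a s') := by
  cases a
  · cases h with
    | l β h => exact CS.l _ h
    | r α h => exact CS.r _ (h.cons x)
    | f α β a => exact CS.f α (x :: β) a
  · cases h with
    | l β h => exact CS.l _ (h.app [x])
    | r α h => exact CS.r _ h
    | f α β a => exact CS.f (α ++ [x]) β a

theorem Wk.side {s t : List ℤ × List ℤ} {C : List (List ℤ)}
    {A : List (List ℤ × List ℤ)} {m : ℕ} (x : ℤ) (h : Wk s t C A m) : ∀ a : Bool,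
    ∃ A', Wk (sd x a s) (sd x (xor a m.bodd) t) (A.map (ins x)) A' (2 * m) ∧
      ∀ q ∈ A, ¬ (q.1.Perm s.1) → (∃ r ∈ A', r.1.Perm q.1) ∧ (∃ r ∈ A', r.1.Perm (x :: q.1)) := by
  induction h with
  | nil s =>
    intro a
    refine ⟨[], by simpa using Wk.nil _, by simp⟩
  | @cs s s' t C A m hc _ ih =>
    intro a
    obtain ⟨A', h1, h2⟩ := ih a
    refine ⟨sd x a s' :: A', ?_, ?_⟩
    · have := Wk.cs (hc.sd x a) h1
      rw [wd_sd] at this
      simpa using this
    · intro q hq hns
      rcases List.mem_cons.mp hq with rfl | hq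
      · exact absurd hc.perm.symm hns
      · have h3 : ¬ q.1.Perm s'.1 := fun h => hns (h.trans hc.perm.symm)
        obtain ⟨⟨r, hr, hr'⟩, ⟨r2, hr2, hr2'⟩⟩ := h2 q hq h3
        exact ⟨⟨r, List.mem_cons_of_mem _ hr, hr'⟩, ⟨r2, List.mem_cons_of_mem _ hr2, hr2'⟩⟩
  | @ms s s' t C A m hc _ ih =>
    intro a
    obtain ⟨A', h1, h2⟩ := ih (!a)
    have hx : xor a (m + 1).bodd = xor (!a) m.bodd := by
      cases a <;> simp [Nat.bodd_succ]
    have e2 : 2 * (m + 1) = 2 * m + 1 + 1 := by ring
    -- the three new steps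
    have key : ∃ q1 q2 q3 : List ℤ × List ℤ,
        Wk (sd x a s) (sd x (!a) s') [ins x s'] [q1, q2, q3] 2 ∧
        (∃ r ∈ [q1, q2, q3], r.1.Perm s'.1) ∧ (∃ r ∈ [q1, q2, q3], r.1.Perm (x :: s'.1)) := by
      cases hc with
      | up α b β =>
        cases a
        · refine ⟨(α, b :: x :: β), (α ++ [b], x :: β), (α ++ [b] ++ [x], β), ?_, ?_, ?_⟩
          · have s1 : CS (sd x false (α, b :: β)) (α, b :: x :: β) :=
              CS.r α ⟨[], x, b, β, rfl, rfl⟩
            have s2 : MS (α, b :: x :: β) (α ++ [b], x :: β) := MS.up α b (x :: β)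
            have s3 : MS (α ++ [b], x :: β) (α ++ [b] ++ [x], β) := MS.up (α ++ [b]) x β
            have := Wk.cs s1 (Wk.ms s2 (Wk.ms s3 (Wk.nil _)))
            simpa [wd, ins, sd] using this
          · exact ⟨(α ++ [b], x :: β), by simp, List.Perm.refl _⟩
          · exact ⟨(α ++ [b] ++ [x], β), by simp, List.perm_append_singleton x (α ++ [b])⟩
        · refine ⟨(α ++ [x] ++ [b], β), (α ++ [b] ++ [x], β), (α ++ [b], x :: β), ?_, ?_, ?_⟩
          · have s1 : MS (sd x true (α, b :: β)) (α ++ [x] ++ [b], β) := MS.up (α ++ [x]) b β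
            have s2 : CS (α ++ [x] ++ [b], β) (α ++ [b] ++ [x], β) :=
              CS.l β ⟨α, x, b, [], by simp, by simp⟩
            have s3 : MS (α ++ [b] ++ [x], β) (α ++ [b], x :: β) := MS.down (α ++ [b]) x β
            have := Wk.ms s1 (Wk.cs s2 (Wk.ms s3 (Wk.nil _)))
            simpa [wd, ins, sd] using this
          · exact ⟨(α ++ [b], x :: β), by simp, List.Perm.refl _⟩
          · exact ⟨(α ++ [b] ++ [x], β), by simp, List.perm_append_singleton x (α ++ [b])⟩
      | down α b β =>
        cases a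
        · refine ⟨(α, b :: x :: β), (α, x :: b :: β), (α ++ [x], b :: β), ?_, ?_, ?_⟩
          · have s1 : MS (sd x false (α ++ [b], β)) (α, b :: x :: β) := MS.down α b (x :: β)
            have s2 : CS (α, b :: x :: β) (α, x :: b :: β) := CS.r α ⟨[], b, x, β, rfl, rfl⟩
            have s3 : MS (α, x :: b :: β) (α ++ [x], b :: β) := MS.up α x (b :: β)
            have := Wk.ms s1 (Wk.cs s2 (Wk.ms s3 (Wk.nil _)))
            simpa [wd, ins, sd] using this
          · exact ⟨(α, x :: b :: β), by simp, List.Perm.refl _⟩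
          · exact ⟨(α ++ [x], b :: β), by simp, List.perm_append_singleton x α⟩
        · refine ⟨(α ++ [x] ++ [b], β), (α ++ [x], b :: β), (α, x :: b :: β), ?_, ?_, ?_⟩
          · have s1 : CS (sd x true (α ++ [b], β)) (α ++ [x] ++ [b], β) :=
              CS.l β ⟨α, b, x, [], by simp, by simp⟩
            have s2 : MS (α ++ [x] ++ [b], β) (α ++ [x], b :: β) := MS.down (α ++ [x]) b β
            have s3 : MS (α ++ [x], b :: β) (α, x :: b :: β) := MS.down α x (b :: β)
            have := Wk.cs s1 (Wk.ms s2 (Wk.ms s3 (Wk.nil _)))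
            simpa [wd, ins, sd] using this
          · exact ⟨(α, x :: b :: β), by simp, List.Perm.refl _⟩
          · exact ⟨(α ++ [x], b :: β), by simp, List.perm_append_singleton x α⟩
    obtain ⟨q1, q2, q3, k1, k2, k3⟩ := key
    refine ⟨[q1, q2, q3] ++ A', ?_, ?_⟩
    · rw [hx]
      have := k1.append h1
      have e : 2 + 2 * m = 2 * (m + 1) := by ring
      rw [e] at this
      simpa using this
    · intro q hq _
      by_cases hp : q.1.Perm s'.1
      · obtain ⟨r, hr, hr'⟩ := k2
        obtain ⟨r2, hr2, hr2'⟩ := k3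
        exact ⟨⟨r, List.mem_append_left _ hr, hr'.trans hp.symm⟩,
          ⟨r2, List.mem_append_left _ hr2, hr2'.trans (hp.symm.cons x)⟩⟩
      · rcases List.mem_cons.mp hq with rfl | hq
        · exact absurd (List.Perm.refl _) hp
        · obtain ⟨⟨r, hr, hr'⟩, ⟨r2, hr2, hr2'⟩⟩ := h2 q hq hp
          exact ⟨⟨r, List.mem_append_right _ hr, hr'⟩, ⟨r2, List.mem_append_right _ hr2, hr2'⟩⟩

/-! ## moving the last letter to the front -/

theorem Wk.desc (y : ℤ) : ∀ (u r : List ℤ), ∃ C A, Wk (u ++ y :: r, []) (y :: (u ++ r), []) C A 0 ∧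
    C.length = u.length ∧ (∀ w ∈ C, y ∈ w) ∧ (u ≠ [] → (y :: (u ++ r)) ∈ C) := by
  intro u
  induction u using List.reverseRecOn with
  | nil =>
    intro r
    exact ⟨[], [], by simpa using Wk.nil _, rfl, by simp, by simp⟩
  | append_singleton u a ih =>
    intro r
    obtain ⟨C, A, h1, h2, h3, h4⟩ := ih (a :: r)
    have s1 : CS (u ++ [a] ++ y :: r, []) (u ++ y :: (a :: r), []) :=
      CS.l [] ⟨u, a, y, r, by simp, by simp⟩
    refine ⟨(u ++ y :: (a :: r)) :: C, (u ++ y :: (a :: r), []) :: A, ?_, ?_, ?_, ?_⟩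
    · have := Wk.cs s1 h1
      simpa [wd] using this
    · simp [h2]
    · intro w hw
      rcases List.mem_cons.mp hw with rfl | hw
      · simp
      · exact h3 w hw
    · intro _
      by_cases hu : u = []
      · subst hu
        simp
      · have := h4 hu
        simp only [List.append_assoc, List.singleton_append]
        exact List.mem_cons_of_mem _ this

end Pool.Agent.R322.FH
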